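import Mathlib

/-!
# Convolution walks on finite abelian groups: a product walk with rare global refreshes
-/

namespace Pool.Agent.H251.Walk

open Finset

section general

variable {G : Type} [AddCommGroup G] [Fintype G] [DecidableEq G]

/-- convolution of two functions -/
def conv (f g : G → ℝ) (x : G) : ℝ := ∑ y, f y * g (x - y)

/-- convolution powers; `cpow f t` is the law at time `t` of the walk driven by `f`
started at `0` -/
def cpow (f : G → ℝ) : ℕ → G → ℝ
  | 0 => fun x => if x = 0 then 1 else 0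
  | t + 1 => conv f (cpow f t)

/-- the uniform law -/
noncomputable def unif (G : Type) [Fintype G] : G → ℝ := fun _ => 1 / (Fintype.card G : ℝ)

/-- total variation distance -/
noncomputable def tv (f g : G → ℝ) : ℝ := (1 / 2) * ∑ x, |f x - g x|

/-- probability laws -/
structure IsLaw (f : G → ℝ) : Prop where
  nonneg : ∀ x, 0 ≤ f x
  sum_one : ∑ x, f x = 1

omit [DecidableEq G] in
theorem card_pos' : (0 : ℝ) < Fintype.card G := by
  have : 0 < Fintype.card G := Fintype.card_pos_iff.mpr ⟨0⟩
  exact_mod_cast this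

omit [DecidableEq G] in
theorem unif_law : IsLaw (unif G) where
  nonneg := fun x => by unfold unif; positivity
  sum_one := by
    unfold unif
    rw [Finset.sum_const, Finset.card_univ, nsmul_eq_mul, mul_one_div, div_self card_pos'.ne']

omit [DecidableEq G] in
theorem conv_unif (f : G → ℝ) (hf : IsLaw f) : conv f (unif G) = unif G := by
  funext x
  unfold conv unif
  rw [← Finset.sum_mul, hf.sum_one, one_mul]

omit [DecidableEq G] in
theorem sum_sub_left (g : G → ℝ) (x : G) : ∑ y, g (x - y) = ∑ y, g y := by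
  exact Fintype.sum_equiv (Equiv.subLeft x) _ _ (fun y => rfl)

omit [DecidableEq G] in
theorem unif_conv (f : G → ℝ) (hf : IsLaw f) : conv (unif G) f = unif G := by
  funext x
  unfold conv unif
  rw [← Finset.mul_sum, sum_sub_left, hf.sum_one, mul_one]

omit [DecidableEq G] in
theorem conv_law (f g : G → ℝ) (hf : IsLaw f) (hg : IsLaw g) : IsLaw (conv f g) where
  nonneg := fun x => Finset.sum_nonneg (fun y _ => mul_nonneg (hf.nonneg y) (hg.nonneg _))
  sum_one := by
    unfold conv
    rw [Finset.sum_comm]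
    have : ∀ y, ∑ x, f y * g (x - y) = f y := by
      intro y
      rw [← Finset.mul_sum]
      have h : ∑ x, g (x - y) = ∑ x, g x := Fintype.sum_equiv (Equiv.subRight y) _ _ (fun y => rfl)
      rw [h, hg.sum_one, mul_one]
    simp only [this, hf.sum_one]

theorem cpow_law (f : G → ℝ) (hf : IsLaw f) (t : ℕ) : IsLaw (cpow f t) := by
  induction t with
  | zero =>
    refine ⟨fun x => ?_, ?_⟩
    · unfold cpow; split_ifs <;> norm_num
    · unfold cpow; simp
  | succ t ih => exact conv_law f _ hf ih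

/-- mixing with the uniform law -/
noncomputable def mixU (r : ℝ) (f : G → ℝ) : G → ℝ := fun x => (1 - r) * f x + r * unif G x

omit [AddCommGroup G] [DecidableEq G] in
theorem mixU_law (r : ℝ) (h0 : 0 ≤ r) (h1 : r ≤ 1) (f : G → ℝ) (hf : IsLaw f)
    (hu : IsLaw (unif G)) : IsLaw (mixU r f) where
  nonneg := fun x => add_nonneg (mul_nonneg (by linarith) (hf.nonneg x))
    (mul_nonneg h0 (hu.nonneg x))
  sum_one := by
    unfold mixU
    rw [Finset.sum_add_distrib, ← Finset.mul_sum, ← Finset.mul_sum, hf.sum_one, hu.sum_one]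
    ring

/-- convolution powers of a mixture with the uniform law -/
theorem cpow_mixU (r : ℝ) (f : G → ℝ) (hf : IsLaw f) (t : ℕ) (x : G) :
    cpow (mixU r f) t x = (1 - r) ^ t * cpow f t x + (1 - (1 - r) ^ t) * unif G x := by
  induction t generalizing x with
  | zero => unfold cpow; simp
  | succ t ih =>
    have e : cpow (mixU r f) (t + 1) x = ∑ y, mixU r f y * cpow (mixU r f) t (x - y) := rfl
    rw [e]
    have hc := cpow_law f hf t
    have h1 : ∑ y, f y * cpow f t (x - y) = cpow f (t + 1) x := rfl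
    have h2 : ∑ y, f y * unif G (x - y) = unif G x := congrFun (conv_unif f hf) x
    have h3 : ∑ y, unif G y * cpow f t (x - y) = unif G x := congrFun (unif_conv _ hc) x
    have h4 : ∑ y, unif G y * unif G (x - y) = unif G x :=
      congrFun (unif_conv _ unif_law) x
    have e2 : ∀ y, mixU r f y * cpow (mixU r f) t (x - y) =
        (1 - r) * (1 - r) ^ t * (f y * cpow f t (x - y)) +
        (1 - r) * (1 - (1 - r) ^ t) * (f y * unif G (x - y)) +
        r * (1 - r) ^ t * (unif G y * cpow f t (x - y)) +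
        r * (1 - (1 - r) ^ t) * (unif G y * unif G (x - y)) := by
      intro y
      rw [ih]
      unfold mixU
      ring
    simp only [e2, Finset.sum_add_distrib, ← Finset.mul_sum, h1, h2, h3, h4]
    ring

theorem tv_mixU (r : ℝ) (hr : r ≤ 1) (f : G → ℝ) (hf : IsLaw f) (t : ℕ) :
    tv (cpow (mixU r f) t) (unif G) = (1 - r) ^ t * tv (cpow f t) (unif G) := by
  unfold tv
  have e : ∀ x, |cpow (mixU r f) t x - unif G x| = (1 - r) ^ t * |cpow f t x - unif G x| := by
    intro x
    rw [cpow_mixU r f hf t x]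
    have : (1 - r) ^ t * cpow f t x + (1 - (1 - r) ^ t) * unif G x - unif G x =
        (1 - r) ^ t * (cpow f t x - unif G x) := by ring
    rw [this, abs_mul, abs_of_nonneg (pow_nonneg (by linarith) t)]
  simp only [e, ← Finset.mul_sum]
  ring

omit [AddCommGroup G] [DecidableEq G] in
theorem tv_nonneg (f g : G → ℝ) : 0 ≤ tv f g :=
  mul_nonneg (by norm_num) (Finset.sum_nonneg (fun x _ => abs_nonneg _))

omit [AddCommGroup G] [DecidableEq G] in
theorem tv_le_one (f g : G → ℝ) (hf : IsLaw f) (hg : IsLaw g) : tv f g ≤ 1 := by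
  unfold tv
  have : ∑ x, |f x - g x| ≤ ∑ x, (f x + g x) := by
    apply Finset.sum_le_sum
    intro x _
    have h1 := hf.nonneg x
    have h2 := hg.nonneg x
    rw [abs_le]
    constructor <;> linarith
  rw [Finset.sum_add_distrib, hf.sum_one, hg.sum_one] at this
  linarith

omit [AddCommGroup G] [DecidableEq G] in
/-- if `f ≥ θ g` pointwise then the distance is at most `1 - θ` -/
theorem tv_le_of_ge (f g : G → ℝ) (hf : IsLaw f) (hg : IsLaw g) (θ : ℝ) (hθ : θ ≤ 1)
    (h : ∀ x, θ * g x ≤ f x) : tv f g ≤ 1 - θ := by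
  unfold tv
  have : ∑ x, |f x - g x| ≤ ∑ x, ((f x - θ * g x) + (1 - θ) * g x) := by
    apply Finset.sum_le_sum
    intro x _
    have h1 := h x
    have h2 := hg.nonneg x
    have h3 : 0 ≤ (1 - θ) * g x := mul_nonneg (by linarith) h2
    rw [abs_le]
    constructor <;> linarith
  rw [Finset.sum_add_distrib, Finset.sum_sub_distrib, ← Finset.mul_sum, ← Finset.mul_sum,
    hf.sum_one, hg.sum_one] at this
  linarith

omit [AddCommGroup G] [DecidableEq G] in
/-- an event gives a lower bound -/
theorem le_tv (f g : G → ℝ) (hf : IsLaw f) (hg : IsLaw g) (A : Finset G) :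
    ∑ x ∈ A, g x - ∑ x ∈ A, f x ≤ tv f g := by
  classical
  have h1 : ∑ x, |f x - g x| = ∑ x ∈ A, |f x - g x| + ∑ x ∈ Aᶜ, |f x - g x| :=
    (Finset.sum_add_sum_compl A _).symm
  have h2 : ∑ x ∈ A, (g x - f x) ≤ ∑ x ∈ A, |f x - g x| := by
    apply Finset.sum_le_sum
    intro x _
    rw [abs_sub_comm]
    exact le_abs_self _
  have h3 : ∑ x ∈ Aᶜ, (f x - g x) ≤ ∑ x ∈ Aᶜ, |f x - g x| :=
    Finset.sum_le_sum (fun x _ => le_abs_self _)
  have h4 : ∑ x ∈ A, f x + ∑ x ∈ Aᶜ, f x = 1 := by
    rw [Finset.sum_add_sum_compl]; exact hf.sum_one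
  have h5 : ∑ x ∈ A, g x + ∑ x ∈ Aᶜ, g x = 1 := by
    rw [Finset.sum_add_sum_compl]; exact hg.sum_one
  rw [Finset.sum_sub_distrib] at h2 h3
  unfold tv
  rw [h1]
  linarith

/-- transport along an additive equivalence -/
theorem cpow_equiv {H : Type} [AddCommGroup H] [Fintype H] [DecidableEq H] (e : G ≃+ H)
    (f : H → ℝ) (t : ℕ) (x : G) : cpow (fun y => f (e y)) t x = cpow f t (e x) := by
  induction t generalizing x with
  | zero =>
    unfold cpow
    simp only [EmbeddingLike.map_eq_zero_iff]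
  | succ t ih =>
    have e1 : cpow (fun y => f (e y)) (t + 1) x =
        ∑ y, f (e y) * cpow (fun y => f (e y)) t (x - y) := rfl
    have e2 : cpow f (t + 1) (e x) = ∑ z, f z * cpow f t (e x - z) := rfl
    rw [e1, e2, ← Fintype.sum_equiv e.toEquiv (fun y => f (e y) * cpow f t (e x - e y)) _
      (fun y => rfl)]
    apply Finset.sum_congr rfl
    intro y _
    rw [ih, map_sub]

end general

section product

variable {m : ℕ} (p : Fin m → ℕ) [∀ i, NeZero (p i)]

/-- The product law on `∏ ℤ/p_i`: each coordinate is `0` with probability `q` and otherwise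
uniform, independently. -/
noncomputable def rho (q : ℝ) (x : ∀ i, ZMod (p i)) : ℝ :=
  ∏ i, (q * (if x i = 0 then 1 else 0) + (1 - q) / (p i : ℝ))

theorem p_pos (i : Fin m) : (0 : ℝ) < p i := by
  have := NeZero.pos (p i)
  exact_mod_cast this

omit [∀ i, NeZero (p i)] in
theorem rho_one (x : ∀ i, ZMod (p i)) : rho p 1 x = if x = 0 then 1 else 0 := by
  unfold rho
  by_cases h : x = 0
  · subst h; simp
  · rw [if_neg h]
    obtain ⟨i, hi⟩ : ∃ i, x i ≠ 0 := by
      by_contra hcon
      push Not at hcon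
      exact h (funext hcon)
    apply Finset.prod_eq_zero (Finset.mem_univ i)
    simp [hi]

/-- sums of products over the product group -/
theorem sum_prod (f : ∀ i, ZMod (p i) → ℝ) :
    ∑ x : (∀ i, ZMod (p i)), ∏ i, f i (x i) = ∏ i, ∑ a, f i a := by
  rw [Finset.prod_univ_sum]
  rfl

theorem rho_conv (a b : ℝ) : conv (rho p a) (rho p b) = rho p (a * b) := by
  funext x
  unfold conv
  have e : ∀ y : (∀ i, ZMod (p i)), rho p a y * rho p b (x - y) =
      ∏ i, ((a * (if y i = 0 then 1 else 0) + (1 - a) / (p i : ℝ)) *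
        (b * (if x i - y i = 0 then 1 else 0) + (1 - b) / (p i : ℝ))) := by
    intro y
    unfold rho
    rw [← Finset.prod_mul_distrib]
    rfl
  simp only [e]
  rw [sum_prod p (fun i c => (a * (if c = 0 then 1 else 0) + (1 - a) / (p i : ℝ)) *
        (b * (if x i - c = 0 then 1 else 0) + (1 - b) / (p i : ℝ)))]
  unfold rho
  apply Finset.prod_congr rfl
  intro i _
  have hp := p_pos p i
  have e2 : ∀ c : ZMod (p i), (a * (if c = 0 then 1 else 0) + (1 - a) / (p i : ℝ)) *
        (b * (if x i - c = 0 then 1 else 0) + (1 - b) / (p i : ℝ)) =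
      (if c = 0 then a * b * (if x i - c = 0 then 1 else 0) else 0) +
      (if c = 0 then a * ((1 - b) / (p i : ℝ)) else 0) +
      (if x i - c = 0 then (1 - a) / (p i : ℝ) * b else 0) +
      (1 - a) / (p i : ℝ) * ((1 - b) / (p i : ℝ)) := by
    intro c
    split_ifs <;> ring
  have e3 : ∑ c : ZMod (p i), (if x i - c = 0 then (1 - a) / (p i : ℝ) * b else 0) =
      (1 - a) / (p i : ℝ) * b := by
    simp only [sub_eq_zero, Finset.sum_ite_eq, Finset.mem_univ, if_true]
  rw [Finset.sum_congr rfl (fun c _ => e2 c), Finset.sum_add_distrib, Finset.sum_add_distrib,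
    Finset.sum_add_distrib, e3, Finset.sum_ite_eq', Finset.sum_ite_eq',
    if_pos (Finset.mem_univ _), if_pos (Finset.mem_univ _), Finset.sum_const, Finset.card_univ,
    ZMod.card, nsmul_eq_mul, sub_zero]
  field_simp
  ring

theorem rho_sum (q : ℝ) : ∑ x, rho p q x = 1 := by
  unfold rho
  rw [sum_prod p (fun i c => q * (if c = 0 then 1 else 0) + (1 - q) / (p i : ℝ))]
  apply Finset.prod_eq_one
  intro i _
  have hp := p_pos p i
  rw [Finset.sum_add_distrib, ← Finset.mul_sum, Finset.sum_ite_eq', if_pos (Finset.mem_univ _),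
    Finset.sum_const, Finset.card_univ, ZMod.card, nsmul_eq_mul]
  field_simp
  ring

theorem rho_law (q : ℝ) (h0 : 0 ≤ q) (h1 : q ≤ 1) : IsLaw (rho p q) where
  nonneg := fun x => by
    unfold rho
    apply Finset.prod_nonneg
    intro i _
    have hp := p_pos p i
    have : 0 ≤ (1 - q) / (p i : ℝ) := div_nonneg (by linarith) hp.le
    split_ifs <;> linarith
  sum_one := rho_sum p q

theorem cpow_rho (q : ℝ) (t : ℕ) : cpow (rho p q) t = rho p (q ^ t) := by
  induction t with
  | zero =>
    funext x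
    rw [pow_zero, rho_one]
    rfl
  | succ t ih =>
    have : cpow (rho p q) (t + 1) = conv (rho p q) (cpow (rho p q) t) := rfl
    rw [this, ih, rho_conv, pow_succ']

theorem unif_eq (x : ∀ i, ZMod (p i)) : unif (∀ i, ZMod (p i)) x = ∏ i, (1 / (p i : ℝ)) := by
  unfold unif
  rw [Fintype.card_pi, Nat.cast_prod, Finset.prod_div_distrib]
  simp [ZMod.card]

/-- pointwise domination, and the resulting upper bound -/
theorem tv_rho_le (q : ℝ) (h0 : 0 ≤ q) (h1 : q ≤ 1) :
    tv (rho p q) (unif (∀ i, ZMod (p i))) ≤ m * q := by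
  have hθ : (1 - q) ^ m ≤ 1 := pow_le_one₀ (by linarith) (by linarith)
  have h := tv_le_of_ge (rho p q) (unif (∀ i, ZMod (p i))) (rho_law p q h0 h1) unif_law
    ((1 - q) ^ m) hθ ?_
  · have hb := one_add_mul_le_pow (a := -q) (by linarith) m
    have e : (1 + -q) = 1 - q := by ring
    rw [e] at hb
    linarith
  · intro x
    rw [unif_eq p x]
    have e : (1 - q) ^ m * ∏ i, (1 / (p i : ℝ)) = ∏ i : Fin m, ((1 - q) * (1 / (p i : ℝ))) := by
      rw [Finset.prod_mul_distrib, Finset.prod_const, Finset.card_univ, Fintype.card_fin]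
    rw [e]
    unfold rho
    apply Finset.prod_le_prod
    · intro i _
      have hp := p_pos p i
      exact mul_nonneg (by linarith) (by positivity)
    · intro i _
      rw [mul_one_div]
      split_ifs <;> linarith

/-- the event that no coordinate vanishes -/
def noZero : Finset (∀ i, ZMod (p i)) := Finset.univ.filter (fun x => ∀ i, x i ≠ 0)

theorem sum_noZero (f : ∀ i, ZMod (p i) → ℝ) :
    ∑ x ∈ noZero p, ∏ i, f i (x i) = ∏ i, ∑ a ∈ Finset.univ.filter (fun a => a ≠ 0), f i a := by
  unfold noZero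
  rw [Finset.prod_univ_sum]
  apply Finset.sum_congr _ (fun _ _ => rfl)
  ext x
  simp [Fintype.mem_piFinset]

theorem filter_card (i : Fin m) :
    ((Finset.univ.filter (fun a : ZMod (p i) => a ≠ 0)).card : ℝ) = p i - 1 := by
  rw [Finset.filter_ne', Finset.card_erase_of_mem (Finset.mem_univ _), Finset.card_univ, ZMod.card,
    Nat.cast_sub (NeZero.pos (p i)), Nat.cast_one]

theorem rho_noZero (q : ℝ) : ∑ x ∈ noZero p, rho p q x =
    (1 - q) ^ m * ∏ i, (1 - 1 / (p i : ℝ)) := by
  unfold rho
  rw [sum_noZero p (fun i c => q * (if c = 0 then 1 else 0) + (1 - q) / (p i : ℝ))]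
  have e : ∀ i, ∑ a ∈ Finset.univ.filter (fun a : ZMod (p i) => a ≠ 0),
      (q * (if a = 0 then 1 else 0) + (1 - q) / (p i : ℝ)) = (1 - q) * (1 - 1 / (p i : ℝ)) := by
    intro i
    have hp := p_pos p i
    have e1 : ∀ a ∈ Finset.univ.filter (fun a : ZMod (p i) => a ≠ 0),
      (q * (if a = 0 then 1 else 0) + (1 - q) / (p i : ℝ)) = (1 - q) / (p i : ℝ) := by
      intro a ha
      rw [Finset.mem_filter] at ha
      rw [if_neg ha.2]; ring
    rw [Finset.sum_congr rfl e1, Finset.sum_const, nsmul_eq_mul, filter_card]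
    field_simp
  simp only [e]
  rw [Finset.prod_mul_distrib, Finset.prod_const, Finset.card_univ, Fintype.card_fin]

theorem unif_noZero : ∑ x ∈ noZero p, unif (∀ i, ZMod (p i)) x = ∏ i, (1 - 1 / (p i : ℝ)) := by
  have e : ∀ x, unif (∀ i, ZMod (p i)) x = ∏ i, (1 / (p i : ℝ)) := unif_eq p
  simp only [e]
  rw [sum_noZero p (fun i _ => 1 / (p i : ℝ))]
  apply Finset.prod_congr rfl
  intro i _
  have hp := p_pos p i
  rw [Finset.sum_const, nsmul_eq_mul, filter_card]
  field_simp

end product

end Pool.Agent.H251.Walk
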