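import Pool.Agent.H251.CycleWalk

/-!
# Relaxation and mixing times of walks on cycles
-/

namespace Pool.Agent.H251.Walk

open Finset Filter Topology

section defs

variable {n : ℕ} [NeZero n]

/-- The support of `μ` is not contained in a coset of a proper subgroup of `ℤ/n`. -/
def IsErgodic (μ : ZMod n → ℝ) : Prop :=
  ∀ H : AddSubgroup (ZMod n), H ≠ ⊤ → ∀ a : ZMod n, ∃ x, μ x ≠ 0 ∧ x - a ∉ H

/-- The eigenvalue `∑_x μ(x) e^{2 π i j x / n}`. -/
noncomputable def fhat (μ : ZMod n → ℝ) (j : ZMod n) : ℂ :=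
  ∑ x, (μ x : ℂ) * Complex.exp (2 * Real.pi * Complex.I * (j.val * x.val) / n)

/-- The spectral gap `1 - max_{j ≠ 0} |fhat μ j|`. -/
noncomputable def gap (μ : ZMod n → ℝ) : ℝ := 1 - ⨆ j : {j : ZMod n // j ≠ 0}, ‖fhat μ j‖

/-- The relaxation time. -/
noncomputable def Trel (μ : ZMod n → ℝ) : ℝ := 1 / gap μ

/-- The total variation mixing time. -/
noncomputable def Tmix (μ : ZMod n → ℝ) (ε : ℝ) : ℕ :=
  sInf {t : ℕ | tv (cpow μ t) (unif (ZMod n)) ≤ ε}

end defs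

theorem exp_eq_std {n : ℕ} [NeZero n] (j x : ZMod n) :
    Complex.exp (2 * Real.pi * Complex.I * (j.val * x.val) / n) = ZMod.stdAddChar (j * x) := by
  have h := ZMod.stdAddChar_coe (N := n) ((j.val * x.val : ℕ) : ℤ)
  have e : (((j.val * x.val : ℕ) : ℤ) : ZMod n) = j * x := by
    push_cast
    rw [ZMod.natCast_zmod_val, ZMod.natCast_zmod_val]
  rw [e] at h
  rw [h]
  congr 1
  push_cast
  ring

/-- Fourier transform of convolution powers -/
theorem fhat_pow {n : ℕ} [NeZero n] (μ : ZMod n → ℝ) (j : ZMod n) (t : ℕ) :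
    ∑ x, (cpow μ t x : ℂ) * ZMod.stdAddChar (j * x) = fhat μ j ^ t := by
  induction t with
  | zero =>
    unfold cpow
    rw [pow_zero, Finset.sum_eq_single 0]
    · simp
    · intro b _ hb
      simp [hb]
    · intro h
      exact absurd (Finset.mem_univ _) h
  | succ t ih =>
    have e1 : ∀ x, (cpow μ (t + 1) x : ℂ) = ∑ y, (μ y : ℂ) * (cpow μ t (x - y) : ℂ) := by
      intro x
      have : cpow μ (t + 1) x = ∑ y, μ y * cpow μ t (x - y) := rfl
      rw [this]; push_cast; rfl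
    simp only [e1, Finset.sum_mul]
    rw [Finset.sum_comm, pow_succ', ← ih]
    unfold fhat
    rw [Finset.sum_mul]
    apply Finset.sum_congr rfl
    intro y _
    rw [Finset.mul_sum]
    refine Fintype.sum_equiv (Equiv.subRight y) _ _ (fun x => ?_)
    simp only [Equiv.subRight_apply]
    rw [exp_eq_std]
    have : ZMod.stdAddChar (j * x) = ZMod.stdAddChar (j * y) * ZMod.stdAddChar (j * (x - y)) := by
      rw [← AddChar.map_add_eq_mul]; congr 1; ring
    rw [this]; ring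

theorem norm_fhat_pow_le {n : ℕ} [NeZero n] (μ : ZMod n → ℝ) (j : ZMod n) (hj : j ≠ 0) (t : ℕ) :
    ‖fhat μ j‖ ^ t ≤ 2 * tv (cpow μ t) (unif (ZMod n)) := by
  rw [← norm_pow, ← fhat_pow]
  have h0 : ∑ x : ZMod n, (unif (ZMod n) x : ℂ) * ZMod.stdAddChar (j * x) = 0 := by
    unfold unif
    rw [← Finset.mul_sum]
    have := AddChar.sum_eq_zero_of_ne_one (ZMod.isPrimitive_stdAddChar n hj)
    simp only [AddChar.mulShift_apply] at this
    rw [this, mul_zero]
  have e : ∑ x, (cpow μ t x : ℂ) * ZMod.stdAddChar (j * x) =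
      ∑ x, ((cpow μ t x - unif (ZMod n) x : ℝ) : ℂ) * ZMod.stdAddChar (j * x) := by
    rw [← sub_zero (∑ x, (cpow μ t x : ℂ) * ZMod.stdAddChar (j * x)), ← h0,
      ← Finset.sum_sub_distrib]
    apply Finset.sum_congr rfl
    intro x _
    push_cast
    ring
  rw [e]
  refine (norm_sum_le _ _).trans ?_
  unfold tv
  have : ∀ x : ZMod n, ‖((cpow μ t x - unif (ZMod n) x : ℝ) : ℂ) * ZMod.stdAddChar (j * x)‖ =
      |cpow μ t x - unif (ZMod n) x| := by
    intro x
    rw [norm_mul, Complex.norm_real, Real.norm_eq_abs, AddChar.norm_apply, mul_one]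
  simp only [this]
  linarith

/-- a sequence dominated by a geometric one has a small base -/
theorem base_le (a q C : ℝ) (hq : 0 < q) (h : ∀ t : ℕ, a ^ t ≤ C * q ^ t) : a ≤ q := by
  by_contra hcon
  push Not at hcon
  have hr : 1 < a / q := by rwa [one_lt_div hq]
  have ht := tendsto_pow_atTop_atTop_of_one_lt hr
  obtain ⟨t, ht2⟩ := (ht.eventually (eventually_gt_atTop C)).exists
  have h1 := h t
  rw [div_pow, lt_div_iff₀ (pow_pos hq t)] at ht2
  linarith

theorem norm_fhat_le (s : ℕ) (j : ZMod (NN s)) (hj : j ≠ 0) : ‖fhat (mu s) j‖ ≤ qq s := by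
  apply base_le _ _ (2 * mm s) (qq_pos s)
  intro t
  have h1 := norm_fhat_pow_le (mu s) j hj t
  have h2 := tv_mu_decay s t
  linarith

theorem NN_ge (s : ℕ) : 20 * mm s ≤ NN s := by
  have h0 : 0 < mm s := mm_pos s
  let i0 : Fin (mm s) := ⟨0, h0⟩
  have h1 : (20 * mm s : ℝ) ≤ pr s i0 := pr_ge s i0
  have h2 : 20 * mm s ≤ pr s i0 := by exact_mod_cast h1
  have h3 : pr s i0 ∣ NN s := Finset.dvd_prod_of_mem _ (Finset.mem_univ i0)
  exact h2.trans (Nat.le_of_dvd (Nat.pos_of_ne_zero (NN_neZero s).ne) h3)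

theorem mm_ge (s : ℕ) : s + 1 ≤ mm s := by
  have h1 : 400 * (s + 1) < 4 ^ (400 * (s + 1)) := Nat.lt_pow_self (by norm_num)
  have h2 : mm s = 3 * 4 ^ (400 * (s + 1)) := by unfold mm; rfl
  rw [h2]
  omega

theorem gap_ge (s : ℕ) : 1 / (mm s : ℝ) ≤ gap (mu s) := by
  have hN : 20 * mm s ≤ NN s := NN_ge s
  have hm := mm_pos s
  have hne : Nonempty {j : ZMod (NN s) // j ≠ 0} := by
    have : Fact (1 < NN s) := ⟨by omega⟩
    exact ⟨⟨1, one_ne_zero⟩⟩
  have h : ⨆ j : {j : ZMod (NN s) // j ≠ 0}, ‖fhat (mu s) j‖ ≤ qq s :=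
    ciSup_le (fun j => norm_fhat_le s j j.2)
  unfold gap
  unfold qq at h
  linarith

theorem Trel_nonneg (s : ℕ) : 0 ≤ Trel (mu s) := by
  have h := gap_ge s
  have hm := mmR_pos s
  unfold Trel
  have : 0 < gap (mu s) := lt_of_lt_of_le (by positivity) h
  positivity

theorem Trel_le (s : ℕ) : Trel (mu s) ≤ mm s := by
  have h := gap_ge s
  have hm := mmR_pos s
  unfold Trel
  rw [div_le_iff₀ (lt_of_lt_of_le (by positivity) h)]
  rw [div_le_iff₀ hm] at h
  linarith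

/-- some time is mixed at every level -/
theorem mixed_nonempty (s : ℕ) (ε : ℝ) (hε : 0 < ε) :
    {t : ℕ | tv (cpow (mu s) t) (unif (ZMod (NN s))) ≤ ε}.Nonempty := by
  have h1 : (0 : ℝ) ≤ 1 - 1 / (4 * (ell s : ℝ)) := by linarith [rr_le s]
  have h2 : 1 - 1 / (4 * (ell s : ℝ)) < 1 := by linarith [rr_pos s]
  obtain ⟨t, ht⟩ := exists_pow_lt_of_lt_one hε h2
  exact ⟨t, (tv_mu_le s t).trans ht.le⟩

theorem Tmix_gt (s T : ℕ) (ε : ℝ) (hε : 0 < ε)
    (h : ∀ t ≤ T, ε < tv (cpow (mu s) t) (unif (ZMod (NN s)))) : T < Tmix (mu s) ε := by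
  have hmem := Nat.sInf_mem (mixed_nonempty s ε hε)
  by_contra hcon
  push Not at hcon
  have := h _ hcon
  unfold Tmix at this
  exact absurd hmem (not_le.mpr this)

theorem bern (s t : ℕ) :
    1 - (t : ℝ) / (4 * ell s) ≤ (1 - 1 / (4 * (ell s : ℝ))) ^ t := by
  have h := one_add_mul_le_pow (a := -(1 / (4 * (ell s : ℝ)))) (by linarith [rr_le s]) t
  have e : 1 + (t : ℝ) * -(1 / (4 * (ell s : ℝ))) = 1 - (t : ℝ) / (4 * ell s) := by ring
  have e2 : (1 : ℝ) + -(1 / (4 * (ell s : ℝ))) = 1 - 1 / (4 * (ell s : ℝ)) := by ring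
  rw [e, e2] at h
  exact h

theorem Tmix_half (s : ℕ) : ell s < Tmix (mu s) (1 / 2) := by
  apply Tmix_gt s _ _ (by norm_num)
  intro t ht
  have hl := ellR_pos s
  have h1 := tv_mu_ge s t (by omega)
  have h2 := bern s t
  have h3 : (t : ℝ) / (4 * ell s) ≤ 1 / 4 := by
    rw [div_le_div_iff₀ (by positivity) (by norm_num)]
    have : (t : ℝ) ≤ ell s := by exact_mod_cast ht
    linarith
  linarith

theorem Tmix_fifth (s : ℕ) : 2 * ell s < Tmix (mu s) (1 / 5) := by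
  apply Tmix_gt s _ _ (by norm_num)
  intro t ht
  have hl := ellR_pos s
  have h1 := tv_mu_ge s t (by omega)
  have h2 := bern s t
  have h3 : (t : ℝ) / (4 * ell s) ≤ 1 / 2 := by
    rw [div_le_div_iff₀ (by positivity) (by norm_num)]
    have : (t : ℝ) ≤ 2 * ell s := by exact_mod_cast ht
    linarith
  linarith

theorem Tmix_four_fifths (s : ℕ) : Tmix (mu s) (1 - 1 / 5) ≤ ell s := by
  apply Nat.sInf_le
  refine (tv_mu_le s (ell s)).trans ?_
  have hl := ellR_pos s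
  have h1 : 1 - 1 / (4 * (ell s : ℝ)) ≤ Real.exp (-(1 / (4 * (ell s : ℝ)))) := by
    have := Real.add_one_le_exp (-(1 / (4 * (ell s : ℝ))))
    linarith
  have h0 : (0 : ℝ) ≤ 1 - 1 / (4 * (ell s : ℝ)) := by linarith [rr_le s]
  have h2 : (1 - 1 / (4 * (ell s : ℝ))) ^ ell s ≤ Real.exp (-(1 / (4 * (ell s : ℝ)))) ^ ell s :=
    pow_le_pow_left₀ h0 h1 _
  have h3 : Real.exp (-(1 / (4 * (ell s : ℝ)))) ^ ell s = Real.exp (-(1 / 4)) := by
    rw [← Real.exp_nat_mul]; congr 1; field_simp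
  have h4 : Real.exp (-(1 / 4)) ≤ 1 - 1 / 5 := by
    rw [Real.exp_neg]
    have h5 := Real.add_one_le_exp (1 / 4 : ℝ)
    calc (Real.exp (1 / 4))⁻¹ ≤ (1 / 4 + 1 : ℝ)⁻¹ := inv_anti₀ (by norm_num) h5
      _ = 1 - 1 / 5 := by norm_num
  linarith

theorem Tmix_pos (s : ℕ) : 0 < Tmix (mu s) (1 - 1 / 5) := by
  apply Tmix_gt s _ _ (by norm_num)
  intro t ht
  have ht0 : t = 0 := by omega
  subst ht0
  have h1 := tv_mu_ge s 0 (by omega)
  norm_num at h1 ⊢
  linarith

theorem nu_full (s : ℕ) (x : ZMod (NN s)) : 0 < mu s x := by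
  unfold mu mixU
  have h1 := (nu_law s).nonneg x
  have h2 : 0 < unif (ZMod (NN s)) x := by
    unfold unif
    exact one_div_pos.mpr card_pos'
  have h3 := rr_pos s
  have h4 := rr_le s
  have h5 : 0 ≤ (1 - 1 / (4 * (ell s : ℝ))) * nu s x := mul_nonneg (by linarith) h1
  have h6 : 0 < 1 / (4 * (ell s : ℝ)) * unif (ZMod (NN s)) x := mul_pos h3 h2
  linarith

theorem mu_ergodic (s : ℕ) : IsErgodic (mu s) := by
  intro H hH a
  have : ∃ y, y ∉ H := by
    by_contra hcon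
    push Not at hcon
    exact hH ((AddSubgroup.eq_top_iff' H).mpr hcon)
  obtain ⟨y, hy⟩ := this
  exact ⟨y + a, (nu_full s _).ne', by rwa [add_sub_cancel_right]⟩

theorem mu_symm (s : ℕ) (x : ZMod (NN s)) : mu s (-x) = mu s x := by
  unfold mu mixU nu rho unif
  simp only [map_neg, Pi.neg_apply, neg_eq_zero]

end Pool.Agent.H251.Walk
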