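import Pool.Agent.H251.ConvWalk

/-!
# Walks on cycles that satisfy the product condition and have no cutoff
-/

namespace Pool.Agent.H251.Walk

open Finset

/-- number of coordinates -/
@[irreducible] def mm (s : ℕ) : ℕ := 3 * 4 ^ (400 * (s + 1))

/-- the primes -/
noncomputable def pr (s : ℕ) (i : Fin (mm s)) : ℕ := Nat.nth Nat.Prime (20 * mm s + i)

theorem mm_pos (s : ℕ) : 0 < mm s := by unfold mm; positivity

theorem mmR_pos (s : ℕ) : (0 : ℝ) < mm s := by exact_mod_cast mm_pos s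

theorem pr_prime (s : ℕ) (i : Fin (mm s)) : (pr s i).Prime := Nat.prime_nth_prime _

instance pr_neZero (s : ℕ) (i : Fin (mm s)) : NeZero (pr s i) := ⟨(pr_prime s i).ne_zero⟩

theorem pr_ge (s : ℕ) (i : Fin (mm s)) : (20 * mm s : ℝ) ≤ pr s i := by
  have h := Nat.add_two_le_nth_prime (20 * mm s + i)
  have h2 : 20 * mm s ≤ pr s i := by unfold pr; omega
  exact_mod_cast h2

theorem pr_coprime (s : ℕ) : Pairwise (Function.onFun Nat.Coprime (pr s)) := by
  intro i j hij
  apply (Nat.coprime_primes (pr_prime s i) (pr_prime s j)).mpr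
  intro h
  apply hij
  have h2 := Nat.nth_injective Nat.infinite_setOfPred_prime h
  exact Fin.ext (by omega)

/-- the length of the cycle -/
noncomputable def NN (s : ℕ) : ℕ := ∏ i, pr s i

instance NN_neZero (s : ℕ) : NeZero (NN s) := ⟨by
  unfold NN
  exact Finset.prod_ne_zero_iff.mpr (fun i _ => (pr_prime s i).ne_zero)⟩

/-- the Chinese remainder isomorphism -/
noncomputable def crt (s : ℕ) : ZMod (NN s) ≃+ (∀ i, ZMod (pr s i)) :=
  (ZMod.prodEquivPi (pr s) (pr_coprime s)).toAddEquiv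

/-- time scale -/
def ell (s : ℕ) : ℕ := mm s * (s + 1)

theorem ell_pos (s : ℕ) : 0 < ell s := by unfold ell; have := mm_pos s; positivity

theorem ellR_pos (s : ℕ) : (0 : ℝ) < ell s := by exact_mod_cast ell_pos s

/-- the coordinate retention probability -/
noncomputable def qq (s : ℕ) : ℝ := 1 - 1 / mm s

theorem one_div_mm_le (s : ℕ) : 1 / (mm s : ℝ) ≤ 1 / 3 := by
  apply div_le_div_of_nonneg_left (by norm_num) (by norm_num)
  have : 3 ≤ mm s := by
    unfold mm
    have : 1 ≤ 4 ^ (400 * (s + 1)) := Nat.one_le_pow _ _ (by norm_num)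
    omega
  exact_mod_cast this

theorem qq_pos (s : ℕ) : 0 < qq s := by
  have := one_div_mm_le s
  unfold qq; linarith

theorem qq_le (s : ℕ) : qq s ≤ 1 := by
  have : (0 : ℝ) ≤ 1 / mm s := by positivity
  unfold qq; linarith

/-- the base law: all coordinates refresh independently -/
noncomputable def nu (s : ℕ) : ZMod (NN s) → ℝ := fun x => rho (pr s) (qq s) (crt s x)

/-- the law of the increments of the walk -/
noncomputable def mu (s : ℕ) : ZMod (NN s) → ℝ := mixU (1 / (4 * (ell s : ℝ))) (nu s)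

theorem law_equiv {G H : Type} [AddCommGroup G] [Fintype G] [AddCommGroup H] [Fintype H]
    (e : G ≃+ H) (f : H → ℝ) (hf : IsLaw f) : IsLaw (fun x => f (e x)) where
  nonneg := fun x => hf.nonneg _
  sum_one := by
    rw [← hf.sum_one]
    exact Fintype.sum_equiv e.toEquiv _ _ (fun x => rfl)

theorem unif_equiv {G H : Type} [AddCommGroup G] [Fintype G] [AddCommGroup H] [Fintype H]
    (e : G ≃+ H) (x : G) : unif G x = unif H (e x) := by
  unfold unif
  rw [Fintype.card_congr e.toEquiv]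

theorem nu_law (s : ℕ) : IsLaw (nu s) :=
  law_equiv (crt s) _ (rho_law (pr s) (qq s) (qq_pos s).le (qq_le s))

theorem rr_pos (s : ℕ) : 0 < 1 / (4 * (ell s : ℝ)) := by
  have := ellR_pos s
  positivity

theorem rr_le (s : ℕ) : 1 / (4 * (ell s : ℝ)) ≤ 1 / 4 := by
  have h : (1 : ℝ) ≤ ell s := by exact_mod_cast ell_pos s
  apply div_le_div_of_nonneg_left (by norm_num) (by norm_num)
  linarith

theorem mu_law (s : ℕ) : IsLaw (mu s) :=
  mixU_law _ (rr_pos s).le (by linarith [rr_le s]) _ (nu_law s) unif_law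

theorem cpow_nu (s t : ℕ) (x : ZMod (NN s)) :
    cpow (nu s) t x = rho (pr s) (qq s ^ t) (crt s x) := by
  have h := cpow_equiv (crt s) (rho (pr s) (qq s)) t x
  rw [cpow_rho] at h
  exact h

/-- upper bound: exponential decay at rate `qq` -/
theorem tv_nu_le (s t : ℕ) : tv (cpow (nu s) t) (unif (ZMod (NN s))) ≤ mm s * qq s ^ t := by
  have h := tv_rho_le (pr s) (qq s ^ t) (pow_nonneg (qq_pos s).le t)
    (pow_le_one₀ (qq_pos s).le (qq_le s))
  refine le_trans (le_of_eq ?_) h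
  unfold tv
  congr 1
  refine Fintype.sum_equiv (crt s).toEquiv _ _ (fun x => ?_)
  rw [cpow_nu, unif_equiv (crt s) x]
  rfl

/-- the event that no coordinate vanishes -/
noncomputable def AA (s : ℕ) : Finset (ZMod (NN s)) :=
  Finset.univ.filter (fun x => crt s x ∈ noZero (pr s))

theorem sum_AA (s : ℕ) (f : (∀ i, ZMod (pr s i)) → ℝ) :
    ∑ x ∈ AA s, f (crt s x) = ∑ y ∈ noZero (pr s), f y := by
  apply Finset.sum_bij (fun x _ => crt s x)
  · intro x hx
    unfold AA at hx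
    exact (Finset.mem_filter.mp hx).2
  · intro x _ y _ h
    exact (crt s).injective h
  · intro y hy
    obtain ⟨x, rfl⟩ := (crt s).surjective y
    exact ⟨x, by unfold AA; exact Finset.mem_filter.mpr ⟨Finset.mem_univ _, hy⟩, rfl⟩
  · intro x _
    rfl

/-- the uniform mass of the event -/
noncomputable def uA (s : ℕ) : ℝ := ∏ i, (1 - 1 / (pr s i : ℝ))

theorem unif_AA (s : ℕ) : ∑ x ∈ AA s, unif (ZMod (NN s)) x = uA s := by
  have h : ∀ x ∈ AA s, unif (ZMod (NN s)) x = unif (∀ i, ZMod (pr s i)) (crt s x) :=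
    fun x _ => unif_equiv (crt s) x
  rw [Finset.sum_congr rfl h, sum_AA s (unif (∀ i, ZMod (pr s i))), unif_noZero]
  rfl

theorem nu_AA (s t : ℕ) :
    ∑ x ∈ AA s, cpow (nu s) t x = (1 - qq s ^ t) ^ mm s * uA s := by
  have h : ∀ x ∈ AA s, cpow (nu s) t x = rho (pr s) (qq s ^ t) (crt s x) :=
    fun x _ => cpow_nu s t x
  rw [Finset.sum_congr rfl h, sum_AA s (rho (pr s) (qq s ^ t)), rho_noZero]
  rfl

theorem uA_ge (s : ℕ) : 19 / 20 ≤ uA s := by
  have hm := mmR_pos s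
  have h1 : ((1 : ℝ) - 1 / (20 * mm s)) ^ mm s ≤ uA s := by
    have e : ((1 : ℝ) - 1 / (20 * mm s)) ^ mm s = ∏ i : Fin (mm s), ((1 : ℝ) - 1 / (20 * mm s)) := by
      rw [Finset.prod_const, Finset.card_univ, Fintype.card_fin]
    rw [e]
    unfold uA
    have h3 : (1 : ℝ) / (20 * mm s) ≤ 1 / 20 := by
      apply div_le_div_of_nonneg_left (by norm_num) (by norm_num)
      have : (1 : ℝ) ≤ mm s := by exact_mod_cast mm_pos s
      linarith
    apply Finset.prod_le_prod
    · intro i _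
      linarith
    · intro i _
      have h2 := pr_ge s i
      have : (1 : ℝ) / pr s i ≤ 1 / (20 * mm s) :=
        div_le_div_of_nonneg_left (by norm_num) (by positivity) h2
      linarith
  have h2 := one_add_mul_le_pow (a := -(1 / (20 * (mm s : ℝ)))) (by
    have h3 : (1 : ℝ) / (20 * mm s) ≤ 1 / 20 := by
      apply div_le_div_of_nonneg_left (by norm_num) (by norm_num)
      have : (1 : ℝ) ≤ mm s := by exact_mod_cast mm_pos s
      linarith
    linarith) (mm s)
  have e1 : (1 : ℝ) + -(1 / (20 * (mm s : ℝ))) = 1 - 1 / (20 * mm s) := by ring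
  rw [e1] at h2
  have e2 : 1 + (mm s : ℝ) * -(1 / (20 * (mm s : ℝ))) = 19 / 20 := by
    field_simp
    norm_num
  linarith

theorem uA_pos (s : ℕ) : 0 < uA s := by have := uA_ge s; linarith

/-- `(1 - 1/m)^m ≥ 1/4` -/
theorem qq_pow_mm (s : ℕ) : 1 / 4 ≤ qq s ^ mm s := by
  obtain ⟨h, hh⟩ : ∃ h, mm s = 2 * h := by
    refine ⟨3 * (2 * 4 ^ (400 * (s + 1) - 1)), ?_⟩
    unfold mm
    have : 400 * (s + 1) = (400 * (s + 1) - 1) + 1 := by omega
    conv_lhs => rw [this, pow_succ]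
    ring
  have hm := mmR_pos s
  have h1 := one_add_mul_le_pow (a := -(1 / (mm s : ℝ))) (by
    have := one_div_mm_le s
    linarith) h
  have e1 : (1 : ℝ) + -(1 / (mm s : ℝ)) = qq s := by unfold qq; ring
  have e2 : 1 + (h : ℝ) * -(1 / (mm s : ℝ)) = 1 / 2 := by
    have : (mm s : ℝ) = 2 * h := by exact_mod_cast hh
    rw [this] at hm ⊢
    have hh0 : (h : ℝ) ≠ 0 := by
      intro h0
      rw [h0] at hm
      norm_num at hm
    field_simp
    norm_num
  rw [e1, e2] at h1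
  have h2 : qq s ^ mm s = (qq s ^ h) ^ 2 := by rw [hh, mul_comm, pow_mul]
  rw [h2]
  nlinarith

theorem keep_small (s t : ℕ) (ht : t ≤ 400 * ell s) : (1 - qq s ^ t) ^ mm s ≤ 1 / 20 := by
  have hq0 := qq_pos s
  have hq1 := qq_le s
  have hm := mmR_pos s
  have h1 : qq s ^ (400 * ell s) ≤ qq s ^ t := pow_le_pow_of_le_one hq0.le hq1 ht
  have h2 : (1 / 4 : ℝ) ^ (400 * (s + 1)) ≤ qq s ^ (400 * ell s) := by
    have : 400 * ell s = mm s * (400 * (s + 1)) := by unfold ell; ring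
    rw [this, pow_mul (qq s)]
    exact pow_le_pow_left₀ (by norm_num) (qq_pow_mm s) _
  have h3 : (mm s : ℝ) * (1 / 4 : ℝ) ^ (400 * (s + 1)) = 3 := by
    unfold mm
    push_cast
    rw [mul_assoc, ← mul_pow]
    norm_num
  have h4 : 3 ≤ mm s * qq s ^ t := by
    rw [← h3]
    exact mul_le_mul_of_nonneg_left (h2.trans h1) hm.le
  have h5 : 1 - qq s ^ t ≤ Real.exp (-(qq s ^ t)) := by
    have := Real.add_one_le_exp (-(qq s ^ t))
    linarith
  have h6 : (1 - qq s ^ t) ^ mm s ≤ Real.exp (-(qq s ^ t)) ^ mm s :=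
    pow_le_pow_left₀ (by
      have := pow_le_one₀ hq0.le hq1 (n := t)
      linarith) h5 _
  have h7 : Real.exp (-(qq s ^ t)) ^ mm s = Real.exp (-(mm s * qq s ^ t)) := by
    rw [← Real.exp_nat_mul]; congr 1; ring
  rw [h7] at h6
  have h8 : Real.exp (-(mm s * qq s ^ t)) ≤ Real.exp (-3) := Real.exp_le_exp.mpr (by linarith)
  have h9 : Real.exp (-3) ≤ 1 / 20 := by
    have h10 : Real.exp (-3) = Real.exp (-1) ^ 3 := by rw [← Real.exp_nat_mul]; norm_num
    have h11 : Real.exp (-1) < 0.3678794412 := Real.exp_neg_one_lt_d9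
    have h12 : 0 < Real.exp (-1) := Real.exp_pos _
    rw [h10]
    calc Real.exp (-1) ^ 3 ≤ 0.3678794412 ^ 3 := pow_le_pow_left₀ h12.le h11.le 3
      _ ≤ 1 / 20 := by norm_num
  linarith

/-- difference of the masses of the event -/
theorem diff_AA (s t : ℕ) : uA s - ∑ x ∈ AA s, cpow (mu s) t x =
    (1 - 1 / (4 * (ell s : ℝ))) ^ t * (uA s * (1 - (1 - qq s ^ t) ^ mm s)) := by
  have h : ∀ x ∈ AA s, cpow (mu s) t x = (1 - 1 / (4 * (ell s : ℝ))) ^ t * cpow (nu s) t x +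
      (1 - (1 - 1 / (4 * (ell s : ℝ))) ^ t) * unif (ZMod (NN s)) x :=
    fun x _ => cpow_mixU _ _ (nu_law s) t x
  rw [Finset.sum_congr rfl h, Finset.sum_add_distrib, ← Finset.mul_sum, ← Finset.mul_sum,
    unif_AA, nu_AA]
  ring

theorem diff_AA_nonneg (s t : ℕ) : 0 ≤ uA s - ∑ x ∈ AA s, cpow (mu s) t x := by
  rw [diff_AA]
  have h1 : (0 : ℝ) ≤ 1 - 1 / (4 * (ell s : ℝ)) := by linarith [rr_le s]
  have h2 : (1 - qq s ^ t) ^ mm s ≤ 1 := by
    have h3 := pow_le_one₀ (qq_pos s).le (qq_le s) (n := t)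
    have h4 := pow_nonneg (qq_pos s).le t
    exact pow_le_one₀ (by linarith) (by linarith)
  exact mul_nonneg (pow_nonneg h1 t) (mul_nonneg (uA_pos s).le (by linarith))

theorem diff_AA_ge (s t : ℕ) (ht : t ≤ 400 * ell s) :
    9 / 10 * (1 - 1 / (4 * (ell s : ℝ))) ^ t ≤ uA s - ∑ x ∈ AA s, cpow (mu s) t x := by
  rw [diff_AA]
  have h1 : (0 : ℝ) ≤ 1 - 1 / (4 * (ell s : ℝ)) := by linarith [rr_le s]
  have h2 := keep_small s t ht
  have h3 := uA_ge s
  have h4 : 9 / 10 ≤ uA s * (1 - (1 - qq s ^ t) ^ mm s) := by nlinarith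
  rw [mul_comm]
  exact mul_le_mul_of_nonneg_left h4 (pow_nonneg h1 t)

/-- lower bound for the distance of the walk -/
theorem tv_mu_ge (s t : ℕ) (ht : t ≤ 400 * ell s) :
    9 / 10 * (1 - 1 / (4 * (ell s : ℝ))) ^ t ≤ tv (cpow (mu s) t) (unif (ZMod (NN s))) := by
  refine (diff_AA_ge s t ht).trans ?_
  rw [← unif_AA]
  exact le_tv _ _ (cpow_law _ (mu_law s) t) unif_law (AA s)

/-- upper bound for the distance of the walk -/
theorem tv_mu_le (s t : ℕ) :
    tv (cpow (mu s) t) (unif (ZMod (NN s))) ≤ (1 - 1 / (4 * (ell s : ℝ))) ^ t := by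
  have h1 : (0 : ℝ) ≤ 1 - 1 / (4 * (ell s : ℝ)) := by linarith [rr_le s]
  unfold mu
  rw [tv_mixU _ (by linarith [rr_le s]) _ (nu_law s) t]
  have := tv_le_one _ _ (cpow_law _ (nu_law s) t) (unif_law (G := ZMod (NN s)))
  calc _ ≤ (1 - 1 / (4 * (ell s : ℝ))) ^ t * 1 :=
        mul_le_mul_of_nonneg_left this (pow_nonneg h1 t)
    _ = _ := mul_one _

/-- decay at rate `1 - 1/m` -/
theorem tv_mu_decay (s t : ℕ) :
    tv (cpow (mu s) t) (unif (ZMod (NN s))) ≤ mm s * qq s ^ t := by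
  have h1 : (0 : ℝ) ≤ 1 - 1 / (4 * (ell s : ℝ)) := by linarith [rr_le s]
  unfold mu
  rw [tv_mixU _ (by linarith [rr_le s]) _ (nu_law s) t]
  have h2 := tv_nu_le s t
  have h3 : (1 - 1 / (4 * (ell s : ℝ))) ^ t ≤ 1 := pow_le_one₀ h1 (by linarith [rr_pos s])
  have h4 := tv_nonneg (cpow (nu s) t) (unif (ZMod (NN s)))
  nlinarith

end Pool.Agent.H251.Walk
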