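import Mathlib

/-!
# The heat kernel `exp (-t (I - P))` of a finite transition matrix as a Poisson mixture
-/

namespace Pool.Agent.H251

open Finset

variable {Ω : Type} [Fintype Ω] [DecidableEq Ω]

/-- `exp (t P) x y = ∑ tⁿ / n! (Pⁿ) x y`. -/
theorem exp_smul_hasSum (M : Matrix Ω Ω ℝ) (x y : Ω) :
    HasSum (fun n : ℕ => ((Nat.factorial n : ℝ)⁻¹) * ((M ^ n) x y))
      ((NormedSpace.exp M : Matrix Ω Ω ℝ) x y) := by
  open scoped Matrix.Norms.Operator in
  have h := NormedSpace.exp_series_hasSum_exp' (𝕂 := ℝ) M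
  have hc : Continuous (fun A : Matrix Ω Ω ℝ => A x y) := by
    exact (continuous_apply y).comp (continuous_apply x)
  let ev : Matrix Ω Ω ℝ →+ ℝ :=
    { toFun := fun A => A x y, map_zero' := rfl, map_add' := fun _ _ => rfl }
  exact h.map ev hc

/-- The heat kernel splits off the scalar `exp (-t)`. -/
theorem heat_eq (P : Matrix Ω Ω ℝ) (t : ℝ) :
    (NormedSpace.exp (-(t • (1 - P))) : Matrix Ω Ω ℝ) =
      Real.exp (-t) • (NormedSpace.exp (t • P) : Matrix Ω Ω ℝ) := by
  have h1 : -(t • (1 - P)) = (Matrix.diagonal (fun _ : Ω => -t)) + t • P := by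
    have : (Matrix.diagonal (fun _ : Ω => -t)) = (-t) • (1 : Matrix Ω Ω ℝ) := by
      ext i j
      by_cases hij : i = j
      · subst hij; simp
      · simp [Matrix.diagonal, hij]
    rw [this, smul_sub, neg_sub, neg_smul]
    abel
  have hcomm : Commute (Matrix.diagonal (fun _ : Ω => -t)) (t • P) := by
    have : (Matrix.diagonal (fun _ : Ω => -t)) = (-t) • (1 : Matrix Ω Ω ℝ) := by
      ext i j
      by_cases hij : i = j
      · subst hij; simp
      · simp [Matrix.diagonal, hij]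
    rw [this]
    exact (Commute.one_left _).smul_left _
  rw [h1, Matrix.exp_add_of_commute _ _ hcomm, Matrix.exp_diagonal]
  ext i j
  rw [Matrix.diagonal_mul, Matrix.smul_apply, smul_eq_mul]
  congr 1
  rw [Pi.coe_exp, ← Real.exp_eq_exp_ℝ]

/-- The heat kernel is the Poisson mixture of the powers of `P`. -/
theorem heat_hasSum (P : Matrix Ω Ω ℝ) (t : ℝ) (x y : Ω) :
    HasSum (fun n : ℕ => Real.exp (-t) * t ^ n / (Nat.factorial n : ℝ) * ((P ^ n) x y))
      ((NormedSpace.exp (-(t • (1 - P))) : Matrix Ω Ω ℝ) x y) := by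
  rw [heat_eq, Matrix.smul_apply, smul_eq_mul]
  have h := (exp_smul_hasSum (t • P) x y).mul_left (Real.exp (-t))
  have e : (fun n : ℕ => Real.exp (-t) * t ^ n / (Nat.factorial n : ℝ) * ((P ^ n) x y)) =
      fun n : ℕ => Real.exp (-t) * (((Nat.factorial n : ℝ)⁻¹) * (((t • P) ^ n) x y)) := by
    funext n
    rw [smul_pow, Matrix.smul_apply, smul_eq_mul]
    ring
  rw [e]
  exact h

/-- The heat kernel applied to a function. -/
theorem heat_mulVec_hasSum (P : Matrix Ω Ω ℝ) (t : ℝ) (V : Ω → ℝ) (x : Ω) :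
    HasSum (fun n : ℕ => Real.exp (-t) * t ^ n / (Nat.factorial n : ℝ) *
        (∑ y, (P ^ n) x y * V y))
      (∑ y, (NormedSpace.exp (-(t • (1 - P))) : Matrix Ω Ω ℝ) x y * V y) := by
  have h := hasSum_sum (s := (Finset.univ : Finset Ω))
    (fun y _ => (heat_hasSum P t x y).mul_right (V y))
  have e : (fun n : ℕ => Real.exp (-t) * t ^ n / (Nat.factorial n : ℝ) *
        (∑ y, (P ^ n) x y * V y)) =
      fun n : ℕ => ∑ y, Real.exp (-t) * t ^ n / (Nat.factorial n : ℝ) * (P ^ n) x y * V y := by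
    funext n
    rw [Finset.mul_sum]
    exact Finset.sum_congr rfl (fun y _ => by ring)
  rw [e]
  exact h

theorem poisson_hasSum (t : ℝ) (r : ℝ) :
    HasSum (fun n : ℕ => Real.exp (-t) * t ^ n / (Nat.factorial n : ℝ) * r ^ n)
      (Real.exp (-(1 - r) * t)) := by
  have h := (NormedSpace.expSeries_div_hasSum_exp (𝔸 := ℝ) (t * r)).mul_left (Real.exp (-t))
  rw [← Real.exp_eq_exp_ℝ, ← Real.exp_add] at h
  have e : (fun n : ℕ => Real.exp (-t) * t ^ n / (Nat.factorial n : ℝ) * r ^ n) =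
      fun n : ℕ => Real.exp (-t) * ((t * r) ^ n / (Nat.factorial n : ℝ)) := by
    funext n
    rw [mul_pow]
    ring
  have e2 : -(1 - r) * t = -t + t * r := by ring
  rw [e, e2]
  exact h

end Pool.Agent.H251
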