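import Mathlib

/-!
# Definitions for MP_bada7b_pr: modified log-Sobolev constant, entropy mixing time and the
entropy hitting-time parameter of a finite irreducible reversible Markov chain
-/

namespace Pool.Agent.H251.MLS

open Finset

section

variable {Ω : Type} [Fintype Ω] [DecidableEq Ω]

/-- `P` is an irreducible transition matrix on the finite set `Ω`, reversible with respect to the
probability measure `π` (which is then its stationary distribution). -/
structure IsChain (P : Matrix Ω Ω ℝ) (π : Ω → ℝ) : Prop where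
  nonneg : ∀ x y, 0 ≤ P x y
  row_sum : ∀ x, ∑ y, P x y = 1
  pi_pos : ∀ x, 0 < π x
  pi_sum : ∑ x, π x = 1
  reversible : ∀ x y, π x * P x y = π y * P y x
  irreducible : ∀ x y, Relation.ReflTransGen (fun a b => 0 < P a b) x y

/-- The Dirichlet form `⟨(I - P) f, g⟩_π`. -/
noncomputable def dirichlet (P : Matrix Ω Ω ℝ) (π : Ω → ℝ) (f g : Ω → ℝ) : ℝ :=
  ∑ x, π x * (((1 - P).mulVec f) x * g x)

/-- The entropy functional `E_π[f log f] - E_π[f] log E_π[f]`. -/
noncomputable def ent (π : Ω → ℝ) (f : Ω → ℝ) : ℝ :=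
  ∑ x, π x * (f x * Real.log (f x)) - (∑ x, π x * f x) * Real.log (∑ x, π x * f x)

/-- The modified log-Sobolev constant: the infimum of `E(e^f, f) / Ent_π(e^f)` over all
non-constant `f`. -/
noncomputable def cMLS (P : Matrix Ω Ω ℝ) (π : Ω → ℝ) : ℝ :=
  sInf {r : ℝ | ∃ f : Ω → ℝ, (¬ ∃ c, ∀ x, f x = c) ∧
    r = dirichlet P π (fun x => Real.exp (f x)) f / ent π (fun x => Real.exp (f x))}

/-- The heat kernel `H_t = e^{-t (I - P)}` (matrix exponential). -/
noncomputable def heat (P : Matrix Ω Ω ℝ) (t : ℝ) : Matrix Ω Ω ℝ :=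
  NormedSpace.exp (-(t • (1 - P)))

/-- Relative entropy `D(μ ‖ π) = ∑ μ(x) log (μ(x) / π(x))`. -/
noncomputable def relEnt (μ π : Ω → ℝ) : ℝ := ∑ x, μ x * Real.log (μ x / π x)

/-- The entropy mixing time `max_x inf {t ≥ 0 : D(H_t(x, ·) ‖ π) ≤ 1/2}`. -/
noncomputable def tauEnt (P : Matrix Ω Ω ℝ) (π : Ω → ℝ) : ℝ :=
  ⨆ x, sInf {t : ℝ | 0 ≤ t ∧ relEnt (heat P t x) π ≤ 1 / 2}

/-- The probability that the discrete time chain with transition matrix `P` started at `x` is in
`A` at all times `0, 1, …, n`. -/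
noncomputable def stay (P : Matrix Ω Ω ℝ) (A : Finset Ω) : ℕ → Ω → ℝ
  | 0, x => if x ∈ A then 1 else 0
  | n + 1, x => if x ∈ A then ∑ y, P x y * stay P A n y else 0

/-- `Pr_x [T_{A^c} > t]`: the continuous time chain with heat kernel `e^{-t (I - P)}` moves
according to `P` at the points of a rate one Poisson clock, so it is in `A` during `[0, t]` if and
only if the jump chain stays in `A` for the first `N_t` steps, `N_t` being Poisson of mean `t`. -/
noncomputable def survival (P : Matrix Ω Ω ℝ) (A : Finset Ω) (t : ℝ) (x : Ω) : ℝ :=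
  ∑' n : ℕ, Real.exp (-t) * t ^ n / (Nat.factorial n : ℝ) * stay P A n x

/-- `A` is connected: from every point of `A` every point of `A` can be reached inside `A`. -/
def IsConn (P : Matrix Ω Ω ℝ) (A : Finset Ω) : Prop :=
  ∀ a ∈ A, ∀ b ∈ A, Relation.ReflTransGen (fun u v => v ∈ A ∧ 0 < P u v) a b

/-- The entropy hitting-time parameter `ρ_ent` with constant `Cent`. -/
noncomputable def rhoEnt (Cent : ℝ) (P : Matrix Ω Ω ℝ) (π : Ω → ℝ) : ℝ :=
  ⨆ x, sInf {t : ℝ | 0 ≤ t ∧ ∀ A : Finset Ω, A.Nonempty → IsConn P A → ∑ a ∈ A, π a ≤ 1 / 2 →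
    survival P A t x ≤ min (Cent / |Real.log (∑ a ∈ A, π a)|) (99 / 100)}

end

end Pool.Agent.H251.MLS
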