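import Pool.Agent.H251.Heat
import Pool.Agent.H251.MLSDefs

/-!
# The birth and death chain of MP_bada7b_pr
-/

namespace Pool.Agent.H251.MLS

open Finset

/-- up rates -/
noncomputable def up (K i : ℕ) : ℝ := if i = 0 then 1 / (2 * K) else if i < K then 2 / 3 else 0

/-- down rates -/
noncomputable def dn (K i : ℕ) : ℝ :=
  if i = 0 then 0 else if i < K then 1 / 3 else 2 ^ (K - 1) / (2 * K * 4 ^ K)

/-- the transition matrix -/
noncomputable def PP (K : ℕ) : Matrix (Fin (K + 1)) (Fin (K + 1)) ℝ := fun i j =>
  (if (j : ℕ) = i + 1 then up K i else 0) + (if (j : ℕ) + 1 = i then dn K i else 0) +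
    (if (j : ℕ) = i then 1 - up K i - dn K i else 0)

/-- unnormalised weights -/
noncomputable def ww (K i : ℕ) : ℝ :=
  if i = 0 then 1 else if i < K then 3 / (2 * K) * 2 ^ (i - 1) else 4 ^ K

/-- total weight -/
noncomputable def WW (K : ℕ) : ℝ := ∑ i ∈ range (K + 1), ww K i

/-- the stationary law -/
noncomputable def pp (K : ℕ) (i : Fin (K + 1)) : ℝ := ww K i / WW K

theorem up_nonneg (K i : ℕ) : 0 ≤ up K i := by
  unfold up; split_ifs <;> positivity

theorem dn_nonneg (K i : ℕ) : 0 ≤ dn K i := by
  unfold dn; split_ifs <;> positivity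

theorem beta_le (K : ℕ) (hK : 1 ≤ K) : (2 : ℝ) ^ (K - 1) / (2 * K * 4 ^ K) ≤ 1 / (4 * K * 2 ^ K) := by
  obtain ⟨k, rfl⟩ : ∃ k, K = k + 1 := ⟨K - 1, by omega⟩
  have h4 : (4 : ℝ) ^ (k + 1) = 2 ^ (k + 1) * 2 ^ (k + 1) := by
    rw [← mul_pow]; norm_num
  have hk : (0 : ℝ) < ((k + 1 : ℕ) : ℝ) := by positivity
  rw [Nat.add_sub_cancel, h4, div_le_div_iff₀ (by positivity) (by positivity)]
  apply le_of_eq
  rw [pow_succ]
  ring

theorem up_add_dn_le (K i : ℕ) (hK : 1 ≤ K) : up K i + dn K i ≤ 1 := by
  have hK' : (1 : ℝ) ≤ K := by exact_mod_cast hK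
  unfold up dn
  split_ifs with h1 h2
  · rw [add_zero, div_le_one (by positivity)]; linarith
  · norm_num
  · rw [zero_add]
    refine (beta_le K hK).trans ?_
    rw [div_le_one (by positivity)]
    have : (1 : ℝ) ≤ 2 ^ K := one_le_pow₀ (by norm_num)
    nlinarith

theorem PP_nonneg (K : ℕ) (hK : 1 ≤ K) (i j : Fin (K + 1)) : 0 ≤ PP K i j := by
  have h1 := up_nonneg K i
  have h2 := dn_nonneg K i
  have h3 := up_add_dn_le K i hK
  unfold PP
  have a1 : (0 : ℝ) ≤ (if (j : ℕ) = i + 1 then up K i else 0) := by split_ifs <;> linarith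
  have a2 : (0 : ℝ) ≤ (if (j : ℕ) + 1 = i then dn K i else 0) := by split_ifs <;> linarith
  have a3 : (0 : ℝ) ≤ (if (j : ℕ) = i then 1 - up K i - dn K i else 0) := by
    split_ifs <;> linarith
  linarith

/-- the action of the transition matrix on functions -/
theorem PP_sum (K : ℕ) (hK : 1 ≤ K) (i : Fin (K + 1)) (g : ℕ → ℝ) :
    ∑ j, PP K i j * g j =
      up K i * g (i + 1) + dn K i * g (i - 1) + (1 - up K i - dn K i) * g i := by
  have hs : ∑ j, PP K i j * g j = ∑ j ∈ range (K + 1),
      ((if j = i + 1 then up K i * g (i + 1) else 0) +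
        (if j + 1 = i then dn K i * g (i - 1) else 0) +
        (if j = i then (1 - up K i - dn K i) * g i else 0)) := by
    rw [← Fin.sum_univ_eq_sum_range (fun j => ((if j = (i : ℕ) + 1 then up K i * g (i + 1) else 0) +
        (if j + 1 = (i : ℕ) then dn K i * g (i - 1) else 0) +
        (if j = (i : ℕ) then (1 - up K i - dn K i) * g i else 0))) (K + 1)]
    apply Finset.sum_congr rfl
    intro j _
    unfold PP
    rw [add_mul, add_mul]
    congr 1
    · congr 1
      · split_ifs with h
        · rw [h]
        · rw [zero_mul]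
      · split_ifs with h
        · rw [← h, Nat.add_sub_cancel]
        · rw [zero_mul]
    · split_ifs with h
      · rw [h]
      · rw [zero_mul]
  rw [hs, sum_add_distrib, sum_add_distrib]
  congr 1
  · congr 1
    · rw [Finset.sum_ite_eq']
      split_ifs with h
      · rfl
      · have hi : (i : ℕ) = K := by
          have := i.2
          simp only [mem_range] at h
          omega
        have : up K i = 0 := by
          unfold up
          rw [hi]
          rw [if_neg (lt_irrefl K)]
          split_ifs with h0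
          · exfalso
            omega
          · rfl
        rw [this, zero_mul]
    · rcases Nat.eq_zero_or_pos (i : ℕ) with h | h
      · have h0 : dn K i = 0 := by unfold dn; rw [if_pos h]
        rw [h0, zero_mul]
        apply Finset.sum_eq_zero
        intro j _
        rw [if_neg (by omega)]
      · rw [Finset.sum_eq_single ((i : ℕ) - 1)]
        · rw [if_pos (by omega)]
        · intro b _ hb
          rw [if_neg (by omega)]
        · intro hb
          exfalso
          apply hb
          have := i.2
          simp only [mem_range]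
          omega
  · rw [Finset.sum_ite_eq', if_pos]
    simp only [mem_range]
    exact i.2

theorem PP_row (K : ℕ) (hK : 1 ≤ K) (i : Fin (K + 1)) : ∑ j, PP K i j = 1 := by
  have h := PP_sum K hK i (fun _ => 1)
  simp only [mul_one] at h
  rw [h]; ring

theorem ww_pos (K i : ℕ) (hK : 1 ≤ K) : 0 < ww K i := by
  have hK' : (1 : ℝ) ≤ K := by exact_mod_cast hK
  unfold ww; split_ifs <;> positivity

theorem WW_pos (K : ℕ) (hK : 1 ≤ K) : 0 < WW K :=
  Finset.sum_pos (fun i _ => ww_pos K i hK) ⟨0, by simp⟩

theorem pp_pos (K : ℕ) (hK : 1 ≤ K) (i : Fin (K + 1)) : 0 < pp K i :=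
  div_pos (ww_pos K i hK) (WW_pos K hK)

theorem pp_sum (K : ℕ) (hK : 1 ≤ K) : ∑ i, pp K i = 1 := by
  unfold pp
  rw [← Finset.sum_div, Fin.sum_univ_eq_sum_range (fun i => ww K i) (K + 1)]
  exact div_self (WW_pos K hK).ne'

/-- conductances -/
noncomputable def cc (K i : ℕ) : ℝ := if i < K then 2 ^ i / (2 * K) else 0

theorem ww_up (K i : ℕ) (hK : 2 ≤ K) : ww K i * up K i = cc K i := by
  have hK' : (0 : ℝ) < K := by
    have : 0 < K := by omega
    exact_mod_cast this
  unfold ww up cc
  rcases Nat.eq_zero_or_pos i with h | h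
  · subst h
    rw [if_pos rfl, if_pos rfl, if_pos (by omega)]
    simp
  · have h0 : ¬ i = 0 := by omega
    by_cases h2 : i < K
    · simp only [if_neg h0, if_pos h2]
      obtain ⟨k, rfl⟩ : ∃ k, i = k + 1 := ⟨i - 1, by omega⟩
      rw [Nat.add_sub_cancel, pow_succ]
      field_simp
    · simp only [if_neg h0, if_neg h2, mul_zero]

theorem ww_dn (K i : ℕ) (hK : 2 ≤ K) (hi : i < K) : ww K (i + 1) * dn K (i + 1) = cc K i := by
  have hK' : (0 : ℝ) < K := by
    have : 0 < K := by omega
    exact_mod_cast this
  unfold ww dn cc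
  have h0 : ¬ i + 1 = 0 := by omega
  by_cases h2 : i + 1 < K
  · simp only [if_neg h0, if_pos hi, if_pos h2, Nat.add_sub_cancel]
    field_simp
  · simp only [if_neg h0, if_pos hi, if_neg h2]
    have : K - 1 = i := by omega
    rw [this]
    field_simp

theorem reversible (K : ℕ) (hK : 2 ≤ K) (x y : Fin (K + 1)) :
    pp K x * PP K x y = pp K y * PP K y x := by
  unfold pp
  rw [div_mul_eq_mul_div, div_mul_eq_mul_div]
  congr 1
  unfold PP
  rcases lt_trichotomy (x : ℕ) (y : ℕ) with h | h | h
  · by_cases h1 : (y : ℕ) = x + 1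
    · rw [if_pos h1, if_neg (by omega), if_neg (by omega), if_neg (by omega), if_pos (by omega),
        if_neg (by omega)]
      simp only [add_zero, zero_add]
      rw [ww_up K x hK, h1, ww_dn K x hK (by have := y.2; omega)]
    · rw [if_neg h1, if_neg (by omega), if_neg (by omega), if_neg (by omega), if_neg (by omega),
        if_neg (by omega)]
      simp
  · have : x = y := Fin.ext h
    subst this
    rfl
  · by_cases h1 : (x : ℕ) = y + 1
    · rw [if_pos h1, if_neg (by omega), if_pos (by omega), if_neg (by omega), if_neg (by omega),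
        if_neg (by omega)]
      simp only [add_zero, zero_add]
      rw [ww_up K y hK, h1, ww_dn K y hK (by have := x.2; omega)]
    · rw [if_neg h1, if_neg (by omega), if_neg (by omega), if_neg (by omega), if_neg (by omega),
        if_neg (by omega)]
      simp

theorem PP_up_pos (K : ℕ) (hK : 1 ≤ K) (i j : Fin (K + 1)) (h : (j : ℕ) = i + 1) :
    0 < PP K i j := by
  unfold PP
  rw [if_pos h, if_neg (by omega), if_neg (by omega), add_zero, add_zero]
  have hK' : (1 : ℝ) ≤ K := by exact_mod_cast hK
  unfold up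
  have := j.2
  split_ifs
  · positivity
  · norm_num
  · omega

theorem PP_dn_pos (K : ℕ) (hK : 1 ≤ K) (i j : Fin (K + 1)) (h : (j : ℕ) + 1 = i) :
    0 < PP K i j := by
  unfold PP
  rw [if_neg (by omega), if_pos h, if_neg (by omega), add_zero, zero_add]
  have hK' : (1 : ℝ) ≤ K := by exact_mod_cast hK
  unfold dn
  split_ifs
  · omega
  · norm_num
  · positivity

theorem reach_up (K : ℕ) (hK : 1 ≤ K) (m : ℕ) : ∀ (i j : Fin (K + 1)), (j : ℕ) = i + m →
    Relation.ReflTransGen (fun a b => 0 < PP K a b) i j := by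
  induction m with
  | zero =>
    intro i j h
    have : i = j := Fin.ext (by omega)
    rw [this]
  | succ m ih =>
    intro i j h
    have hj := j.2
    let k : Fin (K + 1) := ⟨i + m, by omega⟩
    exact (ih i k rfl).tail (PP_up_pos K hK k j (by simp only [k]; omega))

theorem reach_dn (K : ℕ) (hK : 1 ≤ K) (m : ℕ) : ∀ (i j : Fin (K + 1)), (i : ℕ) = j + m →
    Relation.ReflTransGen (fun a b => 0 < PP K a b) i j := by
  induction m with
  | zero =>
    intro i j h
    have : i = j := Fin.ext (by omega)
    rw [this]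
  | succ m ih =>
    intro i j h
    have hi := i.2
    let k : Fin (K + 1) := ⟨j + 1, by omega⟩
    exact (ih i k (by simp only [k]; omega)).tail (PP_dn_pos K hK k j (by simp only [k]))

theorem isChain (K : ℕ) (hK : 2 ≤ K) : IsChain (PP K) (pp K) where
  nonneg := PP_nonneg K (by omega)
  row_sum := PP_row K (by omega)
  pi_pos := pp_pos K (by omega)
  pi_sum := pp_sum K (by omega)
  reversible := reversible K hK
  irreducible := by
    intro x y
    rcases le_total (x : ℕ) (y : ℕ) with h | h
    · exact reach_up K (by omega) (y - x) x y (by omega)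
    · exact reach_dn K (by omega) (x - y) x y (by omega)

end Pool.Agent.H251.MLS
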