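import Pool.Agent.H251.MLSGen
import Pool.Agent.H251.MLSChain

/-!
# Quantitative bounds for the birth and death chain
-/

namespace Pool.Agent.H251.MLS

open Finset

theorem mulVec_PP (K : ℕ) (hK : 1 ≤ K) (i : Fin (K + 1)) (f : ℕ → ℝ) :
    ((1 - PP K).mulVec (fun j : Fin (K + 1) => f j)) i =
      up K i * (f i - f (i + 1)) + dn K i * (f i - f (i - 1)) := by
  rw [Matrix.sub_mulVec, Matrix.one_mulVec, Pi.sub_apply]
  have h := PP_sum K hK i f
  have e : ((PP K).mulVec (fun j : Fin (K + 1) => f j)) i = ∑ j, PP K i j * f j := rfl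
  rw [e, h]
  ring

/-- the Dirichlet form of the chain -/
theorem dirichlet_PP (K : ℕ) (hK : 2 ≤ K) (f g : ℕ → ℝ) :
    dirichlet (PP K) (pp K) (fun i => f i) (fun i => g i) =
      (∑ i ∈ range K, 2 ^ i / (2 * K) * ((f i - f (i + 1)) * (g i - g (i + 1)))) / WW K := by
  unfold dirichlet
  have e1 : ∀ i : Fin (K + 1), pp K i * (((1 - PP K).mulVec (fun j : Fin (K + 1) => f j)) i * g i) =
      (cc K i * ((f i - f (i + 1)) * g i) + ww K i * dn K i * ((f i - f (i - 1)) * g i)) / WW K := by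
    intro i
    rw [mulVec_PP K (by omega) i f, ← ww_up K i hK]
    unfold pp
    ring
  simp only [e1]
  rw [← Finset.sum_div, Fin.sum_univ_eq_sum_range
    (fun i => cc K i * ((f i - f (i + 1)) * g i) + ww K i * dn K i * ((f i - f (i - 1)) * g i))
    (K + 1)]
  congr 1
  rw [Finset.sum_add_distrib, Finset.sum_range_succ, Finset.sum_range_succ']
  have hc : cc K K = 0 := by unfold cc; rw [if_neg (lt_irrefl K)]
  have hd : dn K 0 = 0 := by unfold dn; rw [if_pos rfl]
  rw [hc, hd, zero_mul, add_zero, mul_zero, zero_mul, add_zero, ← Finset.sum_add_distrib]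
  apply Finset.sum_congr rfl
  intro i hi
  have hi' : i < K := Finset.mem_range.mp hi
  rw [ww_dn K i hK hi', Nat.add_sub_cancel]
  have : cc K i = 2 ^ i / (2 * K) := by unfold cc; rw [if_pos hi']
  rw [this]
  ring

theorem four_pow_eq (n : ℕ) : (4 : ℝ) ^ n = 2 ^ n * 2 ^ n := by
  rw [← mul_pow]; norm_num

theorem sum_two_pow (n : ℕ) : ∑ i ∈ range n, (2 : ℝ) ^ i = 2 ^ n - 1 := by
  induction n with
  | zero => simp
  | succ n ih => rw [Finset.sum_range_succ, ih, pow_succ]; ring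

/-- total weight bounds -/
theorem WW_eq (K : ℕ) (hK : 2 ≤ K) :
    WW K = 4 ^ K + 1 + 3 / (2 * K) * (2 ^ (K - 1) - 1) := by
  obtain ⟨k, rfl⟩ : ∃ k, K = k + 1 := ⟨K - 1, by omega⟩
  unfold WW
  rw [Finset.sum_range_succ, Finset.sum_range_succ']
  have h1 : ww (k + 1) (k + 1) = 4 ^ (k + 1) := by
    unfold ww; rw [if_neg (by omega), if_neg (by omega)]
  have h0 : ww (k + 1) 0 = 1 := by unfold ww; rw [if_pos rfl]
  have h2 : ∑ i ∈ range k, ww (k + 1) (i + 1) =
      ∑ i ∈ range k, 3 / (2 * ((k + 1 : ℕ) : ℝ)) * 2 ^ i := by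
    apply Finset.sum_congr rfl
    intro i hi
    have := Finset.mem_range.mp hi
    unfold ww
    rw [if_neg (by omega), if_pos (by omega), Nat.add_sub_cancel]
  rw [h1, h0, h2, ← Finset.mul_sum, sum_two_pow, Nat.add_sub_cancel]
  ring

theorem WW_ge (K : ℕ) (hK : 2 ≤ K) : 4 ^ K ≤ WW K := by
  rw [WW_eq K hK]
  have h1 : (1 : ℝ) ≤ 2 ^ (K - 1) := one_le_pow₀ (by norm_num)
  have h2 : (0 : ℝ) ≤ 3 / (2 * K) * (2 ^ (K - 1) - 1) :=
    mul_nonneg (by positivity) (by linarith)
  linarith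

theorem WW_le (K : ℕ) (hK : 2 ≤ K) : WW K ≤ 4 ^ K + 2 ^ K := by
  rw [WW_eq K hK]
  have hK' : (2 : ℝ) ≤ K := by exact_mod_cast hK
  have h1 : (1 : ℝ) ≤ 2 ^ (K - 1) := one_le_pow₀ (by norm_num)
  have h3 : 3 / (2 * (K : ℝ)) ≤ 3 / 4 := by
    apply div_le_div_of_nonneg_left (by norm_num) (by norm_num) (by linarith)
  have h2 : 3 / (2 * (K : ℝ)) * (2 ^ (K - 1) - 1) ≤ 3 / 4 * (2 ^ (K - 1) - 1) :=
    mul_le_mul_of_nonneg_right h3 (by linarith)
  have h4 : (2 : ℝ) ^ K = 2 * 2 ^ (K - 1) := by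
    obtain ⟨k, rfl⟩ : ∃ k, K = k + 1 := ⟨K - 1, by omega⟩
    rw [Nat.add_sub_cancel, pow_succ]; ring
  rw [h4]
  linarith

theorem two_pow_le_four_pow (K : ℕ) : (2 : ℝ) ^ K ≤ 4 ^ K :=
  pow_le_pow_left₀ (by norm_num) (by norm_num) K

/-- the test function `(K - i) log 4` -/
noncomputable def ff (K i : ℕ) : ℝ := ((K : ℝ) - i) * Real.log 4

theorem exp_ff (K i : ℕ) (hi : i ≤ K) : Real.exp (ff K i) = 4 ^ (K - i) := by
  unfold ff
  rw [mul_comm, Real.exp_mul, Real.exp_log (by norm_num), ← Nat.cast_sub hi, Real.rpow_natCast]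

theorem log_four_pos : 0 < Real.log 4 := Real.log_pos (by norm_num)

theorem sum_bound (K : ℕ) : ∑ i ∈ range K, (2 : ℝ) ^ i * 4 ^ (K - i) ≤ 2 * 4 ^ K := by
  have h : ∀ i ∈ range K, (2 : ℝ) ^ i * 4 ^ (K - i) = 4 ^ K * (1 / 2) ^ i := by
    intro i hi
    have hi' := Finset.mem_range.mp hi
    obtain ⟨m, rfl⟩ : ∃ m, K = i + m := ⟨K - i, by omega⟩
    rw [Nat.add_sub_cancel_left, pow_add, four_pow_eq i, div_pow, one_pow]
    field_simp
  rw [Finset.sum_congr rfl h, ← Finset.mul_sum]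
  have hg : ∑ i ∈ range K, ((1 : ℝ) / 2) ^ i ≤ 2 := by
    exact sum_geometric_two_le K
  have : (0 : ℝ) ≤ 4 ^ K := by positivity
  nlinarith

theorem dirichlet_test (K : ℕ) (hK : 2 ≤ K) :
    dirichlet (PP K) (pp K) (fun i => Real.exp (ff K i)) (fun i => ff K i) ≤
      3 / (4 * K) * Real.log 4 := by
  have hK0 : (0 : ℝ) < K := by
    have : 0 < K := by omega
    exact_mod_cast this
  rw [dirichlet_PP K hK (fun i => Real.exp (ff K i)) (fun i => ff K i)]
  have e : ∀ i ∈ range K, (2 : ℝ) ^ i / (2 * K) *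
      ((Real.exp (ff K i) - Real.exp (ff K (i + 1))) * (ff K i - ff K (i + 1))) =
      3 * Real.log 4 / (8 * K) * (2 ^ i * 4 ^ (K - i)) := by
    intro i hi
    have hi' := Finset.mem_range.mp hi
    rw [exp_ff K i hi'.le, exp_ff K (i + 1) hi']
    have hd : ff K i - ff K (i + 1) = Real.log 4 := by unfold ff; push_cast; ring
    have hp : (4 : ℝ) ^ (K - i) = 4 * 4 ^ (K - (i + 1)) := by
      have : K - i = (K - (i + 1)) + 1 := by omega
      rw [this, pow_succ]; ring
    rw [hd, hp]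
    field_simp
    ring
  rw [Finset.sum_congr rfl e, ← Finset.mul_sum, div_le_iff₀ (WW_pos K (by omega))]
  have hW := WW_ge K hK
  have hs := sum_bound K
  have hl := log_four_pos
  have hc : 0 ≤ 3 * Real.log 4 / (8 * K) := by positivity
  calc 3 * Real.log 4 / (8 * K) * ∑ i ∈ range K, (2 : ℝ) ^ i * 4 ^ (K - i)
      ≤ 3 * Real.log 4 / (8 * K) * (2 * 4 ^ K) := mul_le_mul_of_nonneg_left hs hc
    _ = 3 / (4 * K) * Real.log 4 * 4 ^ K := by ring
    _ ≤ 3 / (4 * K) * Real.log 4 * WW K := mul_le_mul_of_nonneg_left hW (by positivity)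

/-- mean of `e^f` -/
theorem mean_le (K : ℕ) (hK : 2 ≤ K) : ∑ x, pp K x * Real.exp (ff K x) ≤ 4 := by
  unfold pp
  have hW := WW_ge K hK
  have hWp := WW_pos K (by omega : 1 ≤ K)
  have hK' : (2 : ℝ) ≤ K := by exact_mod_cast hK
  have e : ∑ x : Fin (K + 1), ww K x / WW K * Real.exp (ff K x) =
      (∑ i ∈ range (K + 1), ww K i * Real.exp (ff K i)) / WW K := by
    rw [Finset.sum_div, Fin.sum_univ_eq_sum_range (fun i => ww K i / WW K * Real.exp (ff K i)) (K + 1)]
    exact Finset.sum_congr rfl (fun i _ => by ring)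
  rw [e, div_le_iff₀ hWp]
  have hb : ∑ i ∈ range (K + 1), ww K i * Real.exp (ff K i) ≤ 4 * 4 ^ K := by
    rw [Finset.sum_range_succ]
    have hlast : ww K K * Real.exp (ff K K) = 4 ^ K := by
      rw [exp_ff K K le_rfl, Nat.sub_self, pow_zero, mul_one]
      unfold ww
      rw [if_neg (by omega), if_neg (lt_irrefl K)]
    rw [hlast]
    have hterm : ∀ i ∈ range K, ww K i * Real.exp (ff K i) ≤
        (if i = 0 then 4 ^ K else 0) + 3 / (4 * K) * (2 ^ i * 4 ^ (K - i)) := by
      intro i hi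
      have hi' := Finset.mem_range.mp hi
      rw [exp_ff K i hi'.le]
      unfold ww
      split_ifs with h0
      · subst h0
        rw [Nat.sub_zero]
        have : (0 : ℝ) ≤ 3 / (4 * K) * (2 ^ 0 * 4 ^ K) := by positivity
        linarith
      · obtain ⟨k, rfl⟩ : ∃ k, i = k + 1 := ⟨i - 1, by omega⟩
        rw [Nat.add_sub_cancel, pow_succ]
        apply le_of_eq
        ring
    have h1 := Finset.sum_le_sum hterm
    rw [Finset.sum_add_distrib, Finset.sum_ite_eq', if_pos (by simp; omega), ← Finset.mul_sum] at h1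
    have hs := sum_bound K
    have h3 : 3 / (4 * (K : ℝ)) ≤ 1 := by
      rw [div_le_one (by positivity)]; linarith
    have h4 : (0 : ℝ) < 4 ^ K := by positivity
    have h5 : 3 / (4 * (K : ℝ)) * ∑ i ∈ range K, (2 : ℝ) ^ i * 4 ^ (K - i) ≤ 1 * (2 * 4 ^ K) := by
      apply mul_le_mul h3 hs _ (by norm_num)
      exact Finset.sum_nonneg (fun i _ => by positivity)
    linarith
  linarith

theorem ent_test (K : ℕ) (hK : 2 ≤ K) :
    ((K : ℝ) / 2 - 4) * Real.log 4 ≤ ent (pp K) (fun i => Real.exp (ff K i)) := by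
  unfold ent
  have hl := log_four_pos
  have hff : ∀ i : Fin (K + 1), 0 ≤ ff K i := by
    intro i
    have : (i : ℝ) ≤ K := by
      have := i.2
      exact_mod_cast (by omega : (i : ℕ) ≤ K)
    unfold ff
    exact mul_nonneg (by linarith) hl.le
  have hWp := WW_pos K (by omega : 1 ≤ K)
  have hWle := WW_le K hK
  have h24 := two_pow_le_four_pow K
  have h4 : (0 : ℝ) < 4 ^ K := by positivity
  have h1 : (K : ℝ) / 2 * Real.log 4 ≤
      ∑ x, pp K x * (Real.exp (ff K x) * Real.log (Real.exp (ff K x))) := by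
    have hz : pp K 0 * (Real.exp (ff K 0) * Real.log (Real.exp (ff K 0))) ≤
        ∑ x : Fin (K + 1), pp K x * (Real.exp (ff K x) * Real.log (Real.exp (ff K x))) := by
      have := Finset.single_le_sum (f := fun x : Fin (K + 1) =>
        pp K x * (Real.exp (ff K x) * Real.log (Real.exp (ff K x))))
        (fun x _ => by
          rw [Real.log_exp]
          exact mul_nonneg (pp_pos K (by omega) x).le (mul_nonneg (Real.exp_pos _).le (hff x)))
        (Finset.mem_univ (0 : Fin (K + 1)))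
      simpa using this
    refine le_trans ?_ hz
    rw [Real.log_exp, exp_ff K 0 (by omega), Nat.sub_zero]
    have hw0 : pp K 0 = 1 / WW K := by
      unfold pp ww
      simp
    have hf0 : ff K 0 = K * Real.log 4 := by unfold ff; simp
    rw [hw0, hf0]
    have : (1 : ℝ) / 2 ≤ 4 ^ K / WW K := by
      rw [div_le_div_iff₀ (by norm_num) hWp]
      linarith
    calc (K : ℝ) / 2 * Real.log 4 = 1 / 2 * (K * Real.log 4) := by ring
      _ ≤ 4 ^ K / WW K * (K * Real.log 4) :=
          mul_le_mul_of_nonneg_right this (by positivity)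
      _ = 1 / WW K * (4 ^ K * (K * Real.log 4)) := by ring
  have hm := mean_le K hK
  have hm1 : 1 ≤ ∑ x, pp K x * Real.exp (ff K x) := by
    rw [← pp_sum K (by omega)]
    apply Finset.sum_le_sum
    intro x _
    have := pp_pos K (by omega) x
    have h1 : 1 ≤ Real.exp (ff K x) := Real.one_le_exp (hff x)
    nlinarith
  have h2 : (∑ x, pp K x * Real.exp (ff K x)) * Real.log (∑ x, pp K x * Real.exp (ff K x)) ≤
      4 * Real.log 4 := by
    apply mul_le_mul hm (Real.log_le_log (by linarith) hm) (Real.log_nonneg hm1) (by norm_num)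
  linarith

end Pool.Agent.H251.MLS
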