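import Pool.Agent.H251.Heat
import Pool.Agent.H251.MLSDefs

/-!
# General bounds for heat kernels from a Lyapunov function
-/

namespace Pool.Agent.H251.MLS

open Finset

variable {Ω : Type} [Fintype Ω] [DecidableEq Ω]

theorem pow_nonneg_entries (P : Matrix Ω Ω ℝ) (h0 : ∀ x y, 0 ≤ P x y) (n : ℕ) :
    ∀ x y, 0 ≤ (P ^ n) x y := by
  induction n with
  | zero =>
    intro x y
    rw [pow_zero, Matrix.one_apply]
    split_ifs <;> norm_num
  | succ n ih =>
    intro x y
    rw [pow_succ', Matrix.mul_apply]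
    exact Finset.sum_nonneg (fun z _ => mul_nonneg (h0 x z) (ih z y))

theorem pow_row (P : Matrix Ω Ω ℝ) (h1 : ∀ x, ∑ y, P x y = 1) (n : ℕ) :
    ∀ x, ∑ y, (P ^ n) x y = 1 := by
  induction n with
  | zero =>
    intro x
    rw [pow_zero]
    simp [Matrix.one_apply]
  | succ n ih =>
    intro x
    rw [pow_succ']
    simp only [Matrix.mul_apply]
    rw [Finset.sum_comm]
    simp only [← Finset.mul_sum, ih, mul_one, h1]

theorem weight_nonneg {t : ℝ} (ht : 0 ≤ t) (n : ℕ) :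
    0 ≤ Real.exp (-t) * t ^ n / (Nat.factorial n : ℝ) := by positivity

theorem heat_nonneg (P : Matrix Ω Ω ℝ) (h0 : ∀ x y, 0 ≤ P x y) {t : ℝ} (ht : 0 ≤ t) (x y : Ω) :
    0 ≤ heat P t x y :=
  (heat_hasSum P t x y).nonneg
    (fun n => mul_nonneg (weight_nonneg ht n) (pow_nonneg_entries P h0 n x y))

theorem poisson_one (t : ℝ) :
    HasSum (fun n : ℕ => Real.exp (-t) * t ^ n / (Nat.factorial n : ℝ)) 1 := by
  have h := poisson_hasSum t 1
  simpa using h

theorem heat_row (P : Matrix Ω Ω ℝ) (h1 : ∀ x, ∑ y, P x y = 1) (t : ℝ) (x : Ω) :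
    ∑ y, heat P t x y = 1 := by
  have h := heat_mulVec_hasSum P t (fun _ => 1) x
  simp only [mul_one, pow_row P h1] at h
  exact h.unique (poisson_one t)

theorem pow_lyapunov (P : Matrix Ω Ω ℝ) (h0 : ∀ x y, 0 ≤ P x y) (h1 : ∀ x, ∑ y, P x y = 1)
    (V : Ω → ℝ) (lam b : ℝ) (hl : 0 < lam) (hl1 : lam ≤ 1) 
    (hV : ∀ x, ∑ y, P x y * V y ≤ (1 - lam) * V x + b) (n : ℕ) :
    ∀ x, ∑ y, (P ^ n) x y * V y ≤ (1 - lam) ^ n * V x + b * (1 - (1 - lam) ^ n) / lam := by
  induction n with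
  | zero =>
    intro x
    simp [Matrix.one_apply]
  | succ n ih =>
    intro x
    have e : ∑ y, (P ^ (n + 1)) x y * V y = ∑ z, P x z * ∑ y, (P ^ n) z y * V y := by
      rw [pow_succ']
      simp only [Matrix.mul_apply, Finset.sum_mul, Finset.mul_sum]
      rw [Finset.sum_comm]
      exact Finset.sum_congr rfl (fun z _ => Finset.sum_congr rfl (fun y _ => by ring))
    rw [e]
    calc ∑ z, P x z * ∑ y, (P ^ n) z y * V y
        ≤ ∑ z, P x z * ((1 - lam) ^ n * V z + b * (1 - (1 - lam) ^ n) / lam) :=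
          Finset.sum_le_sum (fun z _ => mul_le_mul_of_nonneg_left (ih z) (h0 x z))
      _ = (1 - lam) ^ n * (∑ z, P x z * V z) + b * (1 - (1 - lam) ^ n) / lam := by
          simp only [mul_add, Finset.sum_add_distrib]
          rw [← Finset.sum_mul, h1, one_mul, Finset.mul_sum]
          congr 1
          exact Finset.sum_congr rfl (fun z _ => by ring)
      _ ≤ (1 - lam) ^ n * ((1 - lam) * V x + b) + b * (1 - (1 - lam) ^ n) / lam := by
          have : 0 ≤ (1 - lam) ^ n := pow_nonneg (by linarith) n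
          linarith [mul_le_mul_of_nonneg_left (hV x) this]
      _ = (1 - lam) ^ (n + 1) * V x + b * (1 - (1 - lam) ^ (n + 1)) / lam := by
          field_simp
          ring

theorem heat_lyapunov (P : Matrix Ω Ω ℝ) (h0 : ∀ x y, 0 ≤ P x y) (h1 : ∀ x, ∑ y, P x y = 1)
    (V : Ω → ℝ) (lam b : ℝ) (hl : 0 < lam) (hl1 : lam ≤ 1) (hb : 0 ≤ b)
    (hV : ∀ x, ∑ y, P x y * V y ≤ (1 - lam) * V x + b) {t : ℝ} (ht : 0 ≤ t) (x : Ω) :
    ∑ y, heat P t x y * V y ≤ Real.exp (-(lam * t)) * V x + b / lam := by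
  have hL := heat_mulVec_hasSum P t V x
  have h2 := ((poisson_hasSum t (1 - lam)).mul_right (V x)).add ((poisson_one t).mul_right (b / lam))
  have e : -(1 - (1 - lam)) * t = -(lam * t) := by ring
  rw [e, one_mul] at h2
  refine hasSum_le (fun n => ?_) hL h2
  have hp := pow_lyapunov P h0 h1 V lam b hl hl1 hV n x
  have hw := weight_nonneg ht n
  have hb2 : b * (1 - (1 - lam) ^ n) / lam ≤ b / lam := by
    apply div_le_div_of_nonneg_right _ hl.le
    have : 0 ≤ (1 - lam) ^ n := pow_nonneg (by linarith) n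
    nlinarith
  calc Real.exp (-t) * t ^ n / (Nat.factorial n : ℝ) * (∑ y, (P ^ n) x y * V y)
      ≤ Real.exp (-t) * t ^ n / (Nat.factorial n : ℝ) * ((1 - lam) ^ n * V x + b / lam) :=
        mul_le_mul_of_nonneg_left (by linarith) hw
    _ = _ := by ring

theorem stay_nonneg (P : Matrix Ω Ω ℝ) (h0 : ∀ x y, 0 ≤ P x y) (A : Finset Ω) (n : ℕ) :
    ∀ x, 0 ≤ stay P A n x := by
  induction n with
  | zero => intro x; unfold stay; split_ifs <;> norm_num
  | succ n ih =>
    intro x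
    unfold stay
    split_ifs
    · exact Finset.sum_nonneg (fun z _ => mul_nonneg (h0 x z) (ih z))
    · exact le_rfl

theorem stay_le (P : Matrix Ω Ω ℝ) (h0 : ∀ x y, 0 ≤ P x y) (A : Finset Ω)
    (V : Ω → ℝ) (lam : ℝ) (hl1 : lam ≤ 1) (hV0 : ∀ x, 0 ≤ V x) (hVA : ∀ x ∈ A, 1 ≤ V x)
    (hV : ∀ x ∈ A, ∑ y, P x y * V y ≤ (1 - lam) * V x) (n : ℕ) :
    ∀ x, stay P A n x ≤ (1 - lam) ^ n * V x := by
  induction n with
  | zero =>
    intro x
    unfold stay
    rw [pow_zero, one_mul]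
    split_ifs with h
    · exact hVA x h
    · exact hV0 x
  | succ n ih =>
    intro x
    unfold stay
    have hp : 0 ≤ (1 - lam) ^ n := pow_nonneg (by linarith) n
    split_ifs with h
    · calc ∑ y, P x y * stay P A n y ≤ ∑ y, P x y * ((1 - lam) ^ n * V y) :=
            Finset.sum_le_sum (fun y _ => mul_le_mul_of_nonneg_left (ih y) (h0 x y))
        _ = (1 - lam) ^ n * ∑ y, P x y * V y := by
            rw [Finset.mul_sum]
            exact Finset.sum_congr rfl (fun y _ => by ring)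
        _ ≤ (1 - lam) ^ n * ((1 - lam) * V x) := mul_le_mul_of_nonneg_left (hV x h) hp
        _ = (1 - lam) ^ (n + 1) * V x := by ring
    · exact mul_nonneg (pow_nonneg (by linarith) _) (hV0 x)

theorem survival_le (P : Matrix Ω Ω ℝ) (h0 : ∀ x y, 0 ≤ P x y) (A : Finset Ω)
    (V : Ω → ℝ) (lam : ℝ) (hl1 : lam ≤ 1) (hV0 : ∀ x, 0 ≤ V x) (hVA : ∀ x ∈ A, 1 ≤ V x)
    (hV : ∀ x ∈ A, ∑ y, P x y * V y ≤ (1 - lam) * V x) {t : ℝ} (ht : 0 ≤ t) (x : Ω) :
    survival P A t x ≤ Real.exp (-(lam * t)) * V x := by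
  have h2 := ((poisson_hasSum t (1 - lam)).mul_right (V x))
  have e : -(1 - (1 - lam)) * t = -(lam * t) := by ring
  rw [e] at h2
  rw [← h2.tsum_eq]
  unfold survival
  have hle : ∀ n : ℕ, Real.exp (-t) * t ^ n / (Nat.factorial n : ℝ) * stay P A n x ≤
      Real.exp (-t) * t ^ n / (Nat.factorial n : ℝ) * (1 - lam) ^ n * V x := by
    intro n
    rw [mul_assoc _ ((1 - lam) ^ n)]
    exact mul_le_mul_of_nonneg_left (stay_le P h0 A V lam hl1 hV0 hVA hV n x) (weight_nonneg ht n)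
  have hs : Summable (fun n : ℕ => Real.exp (-t) * t ^ n / (Nat.factorial n : ℝ) * stay P A n x) :=
    Summable.of_nonneg_of_le
      (fun n => mul_nonneg (weight_nonneg ht n) (stay_nonneg P h0 A n x)) hle h2.summable
  exact Summable.tsum_le_tsum hle hs h2.summable

end Pool.Agent.H251.MLS
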