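import Pool.Agent.H251.MLSPos

/-!
# Upper bounds for the entropy mixing time and the hitting-time parameter of the chain
-/

namespace Pool.Agent.H251.MLS

open Finset

/-- the Lyapunov function -/
noncomputable def VV (K i : ℕ) : ℝ := if i < K then 1 + (1 / 2) ^ i + ((K : ℝ) - i) / K else 0

theorem VV_nonneg (K i : ℕ) : 0 ≤ VV K i := by
  unfold VV
  split_ifs with h
  · have : (i : ℝ) ≤ K := by exact_mod_cast h.le
    have h2 : 0 ≤ ((K : ℝ) - i) / K := div_nonneg (by linarith) (Nat.cast_nonneg K)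
    positivity
  · exact le_rfl

theorem VV_ge_one (K i : ℕ) (h : i < K) : 1 ≤ VV K i := by
  unfold VV
  rw [if_pos h]
  have : (i : ℝ) ≤ K := by exact_mod_cast h.le
  have h2 : 0 ≤ ((K : ℝ) - i) / K := div_nonneg (by linarith) (Nat.cast_nonneg K)
  have h3 : (0 : ℝ) ≤ (1 / 2) ^ i := by positivity
  linarith

theorem VV_le (K i : ℕ) : VV K i ≤ 3 := by
  unfold VV
  split_ifs with h
  · have hK : (0 : ℝ) < K := by
      have : 0 < K := by omega
      exact_mod_cast this
    have h1 : ((1 : ℝ) / 2) ^ i ≤ 1 := pow_le_one₀ (by norm_num) (by norm_num)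
    have h2 : ((K : ℝ) - i) / K ≤ 1 := by
      rw [div_le_one hK]
      have : (0 : ℝ) ≤ i := Nat.cast_nonneg i
      linarith
    linarith
  · norm_num

theorem lyap_lt (K : ℕ) (hK : 2 ≤ K) (i : Fin (K + 1)) (hi : (i : ℕ) < K) :
    ∑ j, PP K i j * VV K j ≤ (1 - 1 / (12 * K)) * VV K i := by
  have hK0 : (0 : ℝ) < K := by exact_mod_cast (by omega : 0 < K)
  rw [PP_sum K (by omega) i (VV K)]
  rcases Nat.eq_zero_or_pos (i : ℕ) with h | h
  · have h1 : up K i = 1 / (2 * K) := by unfold up; rw [if_pos h]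
    have h2 : dn K i = 0 := by unfold dn; rw [if_pos h]
    have h3 : VV K i = 3 := by
      unfold VV; rw [if_pos hi, h]; norm_num
      rw [div_self hK0.ne']; norm_num
    have h4 : VV K (i + 1) = 5 / 2 - 1 / K := by
      unfold VV; rw [if_pos (by omega), h]; norm_num
      field_simp
      ring
    rw [h1, h2, h3, h4]
    have h5 : (0 : ℝ) < 1 / K := by positivity
    have e1 : 1 / (2 * (K : ℝ)) = (1 / K) / 2 := by field_simp
    have e2 : 1 / (12 * (K : ℝ)) = (1 / K) / 12 := by field_simp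
    rw [e1, e2]
    nlinarith
  · have h1 : up K i = 2 / 3 := by unfold up; rw [if_neg (by omega), if_pos hi]
    have h2 : dn K i = 1 / 3 := by unfold dn; rw [if_neg (by omega), if_pos hi]
    obtain ⟨k, hk⟩ : ∃ k, (i : ℕ) = k + 1 := ⟨i - 1, by omega⟩
    have h3 := VV_le K i
    have h4 : VV K (i + 1) ≤ 1 + (1 / 2) ^ (k + 2) + ((K : ℝ) - (k + 2)) / K := by
      unfold VV
      rw [hk]
      split_ifs with h5
      · push_cast
        apply le_of_eq
        ring
      · have : (k : ℝ) + 2 ≤ K := by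
          have : k + 2 ≤ K := by omega
          exact_mod_cast this
        have h2 : 0 ≤ ((K : ℝ) - (k + 2)) / K := div_nonneg (by linarith) hK0.le
        positivity
    have h5 : VV K (i - 1) = 1 + (1 / 2) ^ k + ((K : ℝ) - k) / K := by
      unfold VV
      rw [hk, Nat.add_sub_cancel, if_pos (by omega)]
    have h6 : VV K i = 1 + (1 / 2) ^ (k + 1) + ((K : ℝ) - (k + 1)) / K := by
      unfold VV
      rw [hk, if_pos (by omega)]
      push_cast
      ring
    have h7 : 2 / 3 * (1 + (1 / 2) ^ (k + 2) + ((K : ℝ) - (k + 2)) / K) +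
        1 / 3 * (1 + (1 / 2) ^ k + ((K : ℝ) - k) / K) =
        1 + (1 / 2) ^ (k + 1) + ((K : ℝ) - (k + 1)) / K - 1 / (3 * K) := by
      rw [pow_add, pow_succ]
      field_simp
      ring
    have h8 : 1 / (12 * (K : ℝ)) * VV K i ≤ 1 / (12 * (K : ℝ)) * 3 :=
      mul_le_mul_of_nonneg_left h3 (by positivity)
    have h9 : 1 / (12 * (K : ℝ)) * 3 ≤ 1 / (3 * K) := by
      rw [div_mul_eq_mul_div, div_le_div_iff₀ (by positivity) (by positivity)]
      linarith
    rw [h1, h2, h5]
    have h10 : (1 - 2 / 3 - 1 / 3 : ℝ) = 0 := by norm_num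
    rw [h10, zero_mul, add_zero]
    have h11 : 2 / 3 * VV K (↑i + 1) ≤ 2 / 3 * (1 + (1 / 2) ^ (k + 2) + ((K : ℝ) - (k + 2)) / K) :=
      mul_le_mul_of_nonneg_left h4 (by norm_num)
    have h12 : (1 - 1 / (12 * (K : ℝ))) * VV K i = VV K i - 1 / (12 * (K : ℝ)) * VV K i := by ring
    rw [h12]
    linarith

theorem lyap (K : ℕ) (hK : 2 ≤ K) (i : Fin (K + 1)) :
    ∑ j, PP K i j * VV K j ≤ (1 - 1 / (12 * K)) * VV K i + 3 / (4 * K * 2 ^ K) := by
  have hK0 : (0 : ℝ) < K := by exact_mod_cast (by omega : 0 < K)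
  have hb : (0 : ℝ) ≤ 3 / (4 * K * 2 ^ K) := by positivity
  by_cases hi : (i : ℕ) < K
  · linarith [lyap_lt K hK i hi]
  · have hiK : (i : ℕ) = K := by have := i.2; omega
    rw [PP_sum K (by omega) i (VV K)]
    have h1 : up K i = 0 := by unfold up; rw [if_neg (by omega), if_neg hi]
    have h2 : dn K i = 2 ^ (K - 1) / (2 * K * 4 ^ K) := by
      unfold dn; rw [if_neg (by omega), if_neg hi]
    have h3 : VV K i = 0 := by unfold VV; rw [if_neg hi]
    rw [h1, h3, h2]
    have h4 := VV_le K (i - 1)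
    have h5 := VV_nonneg K (i - 1)
    have h6 := beta_le K (by omega)
    have h7 : (2 : ℝ) ^ (K - 1) / (2 * K * 4 ^ K) * VV K (i - 1) ≤ 1 / (4 * K * 2 ^ K) * 3 :=
      mul_le_mul h6 h4 h5 (by positivity)
    have h8 : (3 : ℝ) / (4 * K * 2 ^ K) = 1 / (4 * K * 2 ^ K) * 3 := by ring
    rw [h8]
    linarith

/-- the escape time scale: `E_x V(X_t)` -/
theorem heat_VV (K : ℕ) (hK : 2 ≤ K) {t : ℝ} (ht : 0 ≤ t) (x : Fin (K + 1)) :
    ∑ y, heat (PP K) t x y * VV K y ≤ 3 * Real.exp (-(1 / (12 * K) * t)) + 9 / 2 ^ K := by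
  have hK0 : (2 : ℝ) ≤ K := by exact_mod_cast hK
  have h := heat_lyapunov (PP K) (PP_nonneg K (by omega)) (PP_row K (by omega))
    (fun i => VV K i) (1 / (12 * K)) (3 / (4 * K * 2 ^ K)) (by positivity)
    (by rw [div_le_one (by positivity)]; linarith) (by positivity) (lyap K hK) ht x
  have e : (3 : ℝ) / (4 * K * 2 ^ K) / (1 / (12 * K)) = 9 / 2 ^ K := by
    field_simp
    norm_num
  rw [e] at h
  have h2 := mul_le_mul_of_nonneg_left (VV_le K x) (Real.exp_pos (-(1 / (12 * K) * t))).le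
  linarith

theorem log_bound (K : ℕ) (hK : 2 ≤ K) : Real.log (2 * K * 4 ^ K) ≤ 4 * K := by
  have hK0 : (2 : ℝ) ≤ K := by exact_mod_cast hK
  rw [Real.log_mul (by positivity) (by positivity), Real.log_pow]
  have h1 : Real.log (2 * K) ≤ 2 * K - 1 := Real.log_le_sub_one_of_pos (by positivity)
  have h2 : Real.log 4 ≤ 2 := by
    have h3 : Real.log 4 = 2 * Real.log 2 := by
      rw [show (4 : ℝ) = 2 ^ 2 by norm_num, Real.log_pow]; norm_num
    have := Real.log_two_lt_d9
    linarith
  nlinarith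

theorem pp_last (K : ℕ) (hK : 2 ≤ K) : -Real.log (pp K (Fin.last K)) ≤ 1 / 2 ^ K := by
  have h4 : (0 : ℝ) < 4 ^ K := by positivity
  have hW := WW_pos K (by omega : 1 ≤ K)
  have e : pp K (Fin.last K) = 4 ^ K / WW K := by
    unfold pp ww
    rw [if_neg (by simp only [Fin.val_last]; omega), if_neg (by simp)]
  rw [e, ← Real.log_inv, inv_div]
  have h1 : Real.log (WW K / 4 ^ K) ≤ WW K / 4 ^ K - 1 :=
    Real.log_le_sub_one_of_pos (by positivity)
  have h2 : WW K / 4 ^ K ≤ 1 + 1 / 2 ^ K := by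
    rw [div_le_iff₀ h4]
    have h3 := WW_le K hK
    have h5 : (1 + 1 / 2 ^ K : ℝ) * 4 ^ K = 4 ^ K + 2 ^ K := by
      rw [four_pow_eq]; field_simp
    linarith
  linarith

theorem pp_last_gt (K : ℕ) (hK : 2 ≤ K) : 1 / 2 < pp K (Fin.last K) := by
  have h4 : (0 : ℝ) < 4 ^ K := by positivity
  have hW := WW_pos K (by omega : 1 ≤ K)
  have e : pp K (Fin.last K) = 4 ^ K / WW K := by
    unfold pp ww
    rw [if_neg (by simp only [Fin.val_last]; omega), if_neg (by simp)]
  rw [e, div_lt_div_iff₀ (by norm_num) hW]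
  have h3 := WW_le K hK
  have h5 : (2 : ℝ) ^ K < 4 ^ K := pow_lt_pow_left₀ (by norm_num) (by norm_num) (by omega)
  linarith

theorem relEnt_le (K : ℕ) (hK : 2 ≤ K) {t : ℝ} (ht : 0 ≤ t) (x : Fin (K + 1)) :
    relEnt (heat (PP K) t x) (pp K) ≤
      1 / 2 ^ K + 4 * K * (3 * Real.exp (-(1 / (12 * K) * t)) + 9 / 2 ^ K) := by
  have hK0 : (2 : ℝ) ≤ K := by exact_mod_cast hK
  have hrow := heat_row (PP K) (PP_row K (by omega)) t x
  have hnn := heat_nonneg (PP K) (PP_nonneg K (by omega)) ht x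
  have hle1 : ∀ y, heat (PP K) t x y ≤ 1 := by
    intro y
    rw [← hrow]
    exact Finset.single_le_sum (f := fun y => heat (PP K) t x y) (fun z _ => hnn z)
      (Finset.mem_univ y)
  have hterm : ∀ y, heat (PP K) t x y * Real.log (heat (PP K) t x y / pp K y) ≤
      heat (PP K) t x y * (1 / 2 ^ K) + 4 * K * (heat (PP K) t x y * VV K y) := by
    intro y
    have hpy := pp_pos K (by omega) y
    rcases (hnn y).eq_or_lt with h0 | hpos
    · rw [← h0]; simp
    · rw [Real.log_div hpos.ne' hpy.ne']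
      have hl1 : Real.log (heat (PP K) t x y) ≤ 0 := Real.log_nonpos hpos.le (hle1 y)
      have hl2 : -Real.log (pp K y) ≤ 1 / 2 ^ K + 4 * K * VV K y := by
        by_cases hy : (y : ℕ) < K
        · have h1 := VV_ge_one K y hy
          have h2 : -Real.log (pp K y) ≤ Real.log (2 * K * 4 ^ K) := by
            rw [← Real.log_inv]
            apply Real.log_le_log (by positivity)
            rw [inv_le_comm₀ hpy (by positivity)]
            have := pp_ge K hK y
            rw [one_div] at this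
            exact this
          have h3 := log_bound K hK
          have h4 : (0 : ℝ) ≤ 1 / 2 ^ K := by positivity
          nlinarith
        · have hyK : y = Fin.last K := Fin.ext (by have := y.2; simp only [Fin.val_last]; omega)
          have h3 : VV K y = 0 := by unfold VV; rw [if_neg hy]
          rw [h3, hyK]
          have := pp_last K hK
          linarith
      have := mul_le_mul_of_nonneg_left (by linarith : Real.log (heat (PP K) t x y) -
        Real.log (pp K y) ≤ 1 / 2 ^ K + 4 * K * VV K y) hpos.le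
      linarith
  unfold relEnt
  refine (Finset.sum_le_sum (fun y _ => hterm y)).trans ?_
  rw [Finset.sum_add_distrib, ← Finset.sum_mul, hrow, one_mul, ← Finset.mul_sum]
  have := heat_VV K hK ht x
  have h5 : (0 : ℝ) ≤ 4 * K := by positivity
  linarith [mul_le_mul_of_nonneg_left this h5]

theorem small_bound (K : ℕ) (hK : 12 ≤ K) : (1 + 36 * (K : ℝ)) ≤ 3 / 8 * 2 ^ K := by
  induction K, hK using Nat.le_induction with
  | base => norm_num
  | succ n hn ih =>
    have : (12 : ℝ) ≤ n := by exact_mod_cast hn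
    push_cast
    rw [pow_succ]
    linarith

/-- the time scale at which everything has mixed -/
noncomputable def TT (Cent : ℝ) (K : ℕ) : ℝ := 12 * K * Real.log (96 * K + 12 * K / Cent + 4)

theorem TT_nonneg (Cent : ℝ) (hC : 0 < Cent) (K : ℕ) : 0 ≤ TT Cent K := by
  unfold TT
  have : (0 : ℝ) ≤ 96 * K + 12 * K / Cent := by positivity
  have h2 : 0 ≤ Real.log (96 * K + 12 * K / Cent + 4) := Real.log_nonneg (by linarith)
  positivity

theorem exp_TT (Cent : ℝ) (hC : 0 < Cent) (K : ℕ) (hK : 1 ≤ K) :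
    Real.exp (-(1 / (12 * K) * TT Cent K)) = 1 / (96 * K + 12 * K / Cent + 4) := by
  have hK0 : (0 : ℝ) < K := by exact_mod_cast hK
  unfold TT
  have h : 1 / (12 * (K : ℝ)) * (12 * K * Real.log (96 * K + 12 * K / Cent + 4)) =
      Real.log (96 * K + 12 * K / Cent + 4) := by field_simp
  rw [h, Real.exp_neg, Real.exp_log (by positivity), one_div]

theorem tauEnt_le (Cent : ℝ) (hC : 0 < Cent) (K : ℕ) (hK : 12 ≤ K) :
    tauEnt (PP K) (pp K) ≤ TT Cent K := by
  unfold tauEnt
  apply ciSup_le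
  intro x
  apply csInf_le ⟨0, fun t ht => ht.1⟩
  refine ⟨TT_nonneg Cent hC K, ?_⟩
  refine (relEnt_le K (by omega) (TT_nonneg Cent hC K) x).trans ?_
  rw [exp_TT Cent hC K (by omega)]
  have hK0 : (12 : ℝ) ≤ K := by exact_mod_cast hK
  have h1 : 4 * K * (3 * (1 / (96 * K + 12 * K / Cent + 4))) ≤ (1 : ℝ) / 8 := by
    have h2 : (0 : ℝ) ≤ 12 * K / Cent := by positivity
    have h3 : (0 : ℝ) < 96 * K + 12 * K / Cent + 4 := by positivity
    have e : 4 * K * (3 * (1 / (96 * K + 12 * K / Cent + 4))) =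
        12 * K / (96 * K + 12 * K / Cent + 4) := by ring
    rw [e, div_le_div_iff₀ h3 (by norm_num)]
    linarith
  have h2 := small_bound K hK
  have h4 : (0 : ℝ) < 2 ^ K := by positivity
  have h3 : (1 : ℝ) / 2 ^ K + 4 * K * (9 / 2 ^ K) ≤ 3 / 8 := by
    have e : (1 : ℝ) / 2 ^ K + 4 * K * (9 / 2 ^ K) = (1 + 36 * K) / 2 ^ K := by ring
    rw [e, div_le_iff₀ h4]
    exact h2
  have e : (1 : ℝ) / 2 ^ K + 4 * K * (3 * (1 / (96 * K + 12 * K / Cent + 4)) + 9 / 2 ^ K) =
      ((1 : ℝ) / 2 ^ K + 4 * K * (9 / 2 ^ K)) +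
        4 * K * (3 * (1 / (96 * K + 12 * K / Cent + 4))) := by ring
  rw [e]
  linarith

theorem rhoEnt_le (Cent : ℝ) (hC : 0 < Cent) (K : ℕ) (hK : 12 ≤ K) :
    rhoEnt Cent (PP K) (pp K) ≤ TT Cent K := by
  unfold rhoEnt
  apply ciSup_le
  intro x
  apply csInf_le ⟨0, fun t ht => ht.1⟩
  refine ⟨TT_nonneg Cent hC K, ?_⟩
  intro A hAne _ hA
  have hK0 : (12 : ℝ) ≤ K := by exact_mod_cast hK
  have hlast : ∀ a ∈ A, (a : ℕ) < K := by
    intro a ha
    by_contra hcon
    have : a = Fin.last K := Fin.ext (by have := a.2; simp only [Fin.val_last]; omega)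
    rw [this] at ha
    have h1 := pp_last_gt K (by omega)
    have h2 := Finset.single_le_sum (f := pp K) (fun z _ => (pp_pos K (by omega) z).le) ha
    linarith
  have hs := survival_le (PP K) (PP_nonneg K (by omega)) A (fun i => VV K i) (1 / (12 * K))
    (by rw [div_le_one (by positivity)]; linarith) (fun i => VV_nonneg K i)
    (fun a ha => VV_ge_one K a (hlast a ha)) (fun a ha => lyap_lt K (by omega) a (hlast a ha))
    (TT_nonneg Cent hC K) x
  rw [exp_TT Cent hC K (by omega)] at hs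
  have hM : (0 : ℝ) < 96 * K + 12 * K / Cent + 4 := by positivity
  have hs2 : survival (PP K) A (TT Cent K) x ≤ 3 / (96 * K + 12 * K / Cent + 4) := by
    refine hs.trans ?_
    rw [one_div_mul_eq_div]
    exact div_le_div_of_nonneg_right (VV_le K x) hM.le
  refine hs2.trans (le_min ?_ ?_)
  · obtain ⟨a, ha⟩ := hAne
    have hApos : 1 / (2 * K * 4 ^ K) ≤ ∑ a ∈ A, pp K a :=
      (pp_ge K (by omega) a).trans
        (Finset.single_le_sum (f := pp K) (fun z _ => (pp_pos K (by omega) z).le) ha)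
    have hA0 : 0 < ∑ a ∈ A, pp K a := lt_of_lt_of_le (by positivity) hApos
    have hlneg : Real.log (∑ a ∈ A, pp K a) < 0 := Real.log_neg hA0 (by linarith)
    rw [abs_of_neg hlneg]
    have hlle : -Real.log (∑ a ∈ A, pp K a) ≤ 4 * K := by
      refine le_trans ?_ (log_bound K (by omega))
      rw [← Real.log_inv]
      apply Real.log_le_log (by positivity)
      rw [inv_le_comm₀ hA0 (by positivity)]
      rw [one_div] at hApos
      exact hApos
    have h1 : Cent / (4 * K) ≤ Cent / -Real.log (∑ a ∈ A, pp K a) :=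
      div_le_div_of_nonneg_left hC.le (by linarith) hlle
    refine le_trans ?_ h1
    rw [div_le_div_iff₀ hM (by positivity)]
    have h2 : Cent * (12 * K / Cent) = 12 * K := by field_simp
    have h3 : 0 ≤ Cent * (96 * K + 4) := by positivity
    calc (3 : ℝ) * (4 * K) = Cent * (12 * K / Cent) := by rw [h2]; ring
      _ ≤ Cent * (12 * K / Cent) + Cent * (96 * K + 4) := by linarith
      _ = _ := by ring
  · rw [div_le_div_iff₀ hM (by norm_num)]
    have h2 : (0 : ℝ) ≤ 12 * K / Cent := by positivity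
    linarith

end Pool.Agent.H251.MLS
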