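import Pool.Agent.H251.MLSBounds

/-!
# The modified log-Sobolev constant of the birth and death chain is positive, and small
-/

namespace Pool.Agent.H251.MLS

open Finset

section
variable {Ω : Type} [Fintype Ω]

theorem ent_pos (π : Ω → ℝ) (hp : ∀ x, 0 < π x) (hs : ∑ x, π x = 1) (f : Ω → ℝ)
    (hf : ¬ ∃ c, ∀ x, f x = c) : 0 < ent π (fun x => Real.exp (f x)) := by
  have h := (Real.strictConvexOn_mul_log.map_sum_lt_iff_of_pos (t := Finset.univ) (w := π)
    (p := fun x => Real.exp (f x)) (fun i _ => hp i) hs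
    (fun i _ => Set.mem_Ici.mpr (Real.exp_pos _).le)).mpr ?_
  · simp only [smul_eq_mul] at h
    unfold ent
    linarith
  · by_contra hcon
    push Not at hcon
    apply hf
    by_cases hne : Nonempty Ω
    · obtain ⟨x0⟩ := hne
      refine ⟨f x0, fun x => ?_⟩
      exact Real.exp_injective (hcon x (Finset.mem_univ _) x0 (Finset.mem_univ _))
    · exact ⟨0, fun x => (hne ⟨x⟩).elim⟩

/-- `u log u - u + 1 ≤ (u - 1)²` and then a bound by the square of `√u - 1` -/
theorem ulog_le (v B : ℝ) (hv : 0 < v) (hB : v ≤ B) :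
    v ^ 2 * Real.log (v ^ 2) - v ^ 2 + 1 ≤ (1 + B) ^ 2 * (v - 1) ^ 2 := by
  have h1 : Real.log (v ^ 2) ≤ v ^ 2 - 1 := Real.log_le_sub_one_of_pos (by positivity)
  have h2 : v ^ 2 * Real.log (v ^ 2) ≤ v ^ 2 * (v ^ 2 - 1) :=
    mul_le_mul_of_nonneg_left h1 (by positivity)
  have h3 : (v + 1) ^ 2 ≤ (1 + B) ^ 2 := by
    apply pow_le_pow_left₀ (by linarith); linarith
  have h4 : (v + 1) ^ 2 * (v - 1) ^ 2 ≤ (1 + B) ^ 2 * (v - 1) ^ 2 :=
    mul_le_mul_of_nonneg_right h3 (by positivity)
  nlinarith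

theorem edge_le (p q : ℝ) :
    2 * (Real.exp (p / 2) - Real.exp (q / 2)) ^ 2 ≤ (Real.exp p - Real.exp q) * (p - q) := by
  wlog h : q ≤ p generalizing p q
  · have := this q p (by linarith)
    nlinarith
  have e1 : Real.exp p = Real.exp (p / 2) ^ 2 := by rw [← Real.exp_nat_mul]; congr 1; push_cast; ring
  have e2 : Real.exp q = Real.exp (q / 2) ^ 2 := by rw [← Real.exp_nat_mul]; congr 1; push_cast; ring
  rw [e1, e2]
  set s := Real.exp (p / 2) with hs
  set r := Real.exp (q / 2) with hr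
  have hs0 : 0 < s := Real.exp_pos _
  have hr0 : 0 < r := Real.exp_pos _
  have hrs : r ≤ s := Real.exp_le_exp.mpr (by linarith)
  have hlog : s - r ≤ s * ((p - q) / 2) := by
    have h1 : 1 - (p - q) / 2 ≤ Real.exp (-((p - q) / 2)) := by
      have := Real.add_one_le_exp (-((p - q) / 2))
      linarith
    have h2 : r = s * Real.exp (-((p - q) / 2)) := by
      rw [hs, hr, ← Real.exp_add]; congr 1; ring
    rw [h2]
    nlinarith
  have h3 : 0 ≤ s - r := by linarith
  -- (s²-r²)(p-q) ≥ (s-r)(s+r) * 2 (s-r)/s ≥ 2 (s-r)²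
  have h4 : (s - r) * (s - r) * (s + r) ≤ (s - r) * (s * ((p - q) / 2)) * (s + r) :=
    mul_le_mul_of_nonneg_right (mul_le_mul_of_nonneg_left hlog h3) (by linarith)
  have h5 : (s - r) * (s - r) * s ≤ (s - r) * (s - r) * (s + r) :=
    mul_le_mul_of_nonneg_left (by linarith) (mul_nonneg h3 h3)
  have h6 : s * (2 * (s - r) ^ 2) ≤ s * ((s ^ 2 - r ^ 2) * (p - q)) := by nlinarith
  exact le_of_mul_le_mul_left h6 hs0

end

/-- the total variation along the path dominates all differences -/
theorem diff_le_sum (K : ℕ) (g : ℕ → ℝ) (x y : ℕ) (hx : x ≤ K) (hy : y ≤ K) :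
    |g x - g y| ≤ ∑ i ∈ range K, |g i - g (i + 1)| := by
  wlog h : x ≤ y generalizing x y
  · rw [abs_sub_comm]
    exact this y x hy hx (by omega)
  have h1 : g x - g y = ∑ i ∈ Finset.Ico x y, (g i - g (i + 1)) := by
    rw [← neg_inj, ← Finset.sum_neg_distrib]
    have : ∀ i ∈ Finset.Ico x y, -(g i - g (i + 1)) = g (i + 1) - g i := fun i _ => by ring
    rw [Finset.sum_congr rfl this, Finset.sum_Ico_sub g h]
    ring
  rw [h1]
  refine (Finset.abs_sum_le_sum_abs _ _).trans ?_
  apply Finset.sum_le_sum_of_subset_of_nonneg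
  · intro i hi
    rw [Finset.mem_Ico] at hi
    rw [Finset.mem_range]
    omega
  · intro i _ _
    exact abs_nonneg _

theorem ent_le_dirichlet (K : ℕ) (hK : 2 ≤ K) (pmin : ℝ) (hpm : 0 < pmin)
    (hmin : ∀ x, pmin ≤ pp K x) (f : ℕ → ℝ) :
    ent (pp K) (fun x : Fin (K + 1) => Real.exp (f x)) ≤
      (1 + Real.sqrt (1 / pmin)) ^ 2 * K ^ 2 * WW K *
        dirichlet (PP K) (pp K) (fun x : Fin (K + 1) => Real.exp (f x)) (fun x => f x) := by
  set B := Real.sqrt (1 / pmin) with hB
  set m := ∑ x, pp K x * Real.exp (f x) with hm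
  have hK1 : 1 ≤ K := by omega
  have hK0 : (0 : ℝ) < K := by exact_mod_cast (by omega : 0 < K)
  have hppos := pp_pos K hK1
  have hpsum := pp_sum K hK1
  have hmpos : 0 < m := by
    apply Finset.sum_pos (fun x _ => mul_pos (hppos x) (Real.exp_pos _)) Finset.univ_nonempty
  set sm := Real.sqrt m with hsm
  have hsmpos : 0 < sm := Real.sqrt_pos.mpr hmpos
  have hsm2 : sm ^ 2 = m := Real.sq_sqrt hmpos.le
  set g : ℕ → ℝ := fun i => Real.exp (f i / 2) with hg
  have hgpos : ∀ i, 0 < g i := fun i => Real.exp_pos _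
  have hg2 : ∀ i, g i ^ 2 = Real.exp (f i) := by
    intro i
    rw [hg, ← Real.exp_nat_mul]; congr 1; push_cast; ring
  set D := ∑ i ∈ range K, |g i - g (i + 1)| with hD
  -- every value of g is within D of sm
  have hgx : ∀ x : Fin (K + 1), |g x - sm| ≤ D := by
    obtain ⟨x1, -, hx1⟩ := Finset.exists_min_image Finset.univ (fun x : Fin (K + 1) => g x)
      Finset.univ_nonempty
    obtain ⟨x2, -, hx2⟩ := Finset.exists_max_image Finset.univ (fun x : Fin (K + 1) => g x)
      Finset.univ_nonempty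
    have h1 : g x1 ≤ sm := by
      apply le_of_sq_le_sq _ hsmpos.le
      rw [hsm2, hm]
      calc g x1 ^ 2 = ∑ x, pp K x * g x1 ^ 2 := by rw [← Finset.sum_mul, hpsum, one_mul]
        _ ≤ _ := by
          apply Finset.sum_le_sum
          intro x _
          rw [← hg2]
          exact mul_le_mul_of_nonneg_left
            (pow_le_pow_left₀ (hgpos _).le (hx1 x (Finset.mem_univ _)) 2) (hppos x).le
    have h2 : sm ≤ g x2 := by
      apply le_of_sq_le_sq _ (hgpos _).le
      rw [hsm2, hm]
      calc _ ≤ ∑ x, pp K x * g x2 ^ 2 := by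
            apply Finset.sum_le_sum
            intro x _
            rw [← hg2]
            exact mul_le_mul_of_nonneg_left
              (pow_le_pow_left₀ (hgpos _).le (hx2 x (Finset.mem_univ _)) 2) (hppos x).le
        _ = g x2 ^ 2 := by rw [← Finset.sum_mul, hpsum, one_mul]
    intro x
    have l1 := diff_le_sum K g x x1 (by have := x.2; omega) (by have := x1.2; omega)
    have l2 := diff_le_sum K g x x2 (by have := x.2; omega) (by have := x2.2; omega)
    rw [abs_le] at l1 l2 ⊢
    constructor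
    · linarith [l2.1]
    · linarith [l1.2]
  -- bound of g / sm
  have hgB : ∀ x : Fin (K + 1), g x / sm ≤ B := by
    intro x
    rw [hB]
    apply Real.le_sqrt_of_sq_le
    rw [div_pow, hsm2, div_le_div_iff₀ hmpos hpm, one_mul]
    have : pp K x * Real.exp (f x) ≤ m :=
      Finset.single_le_sum (f := fun x : Fin (K + 1) => pp K x * Real.exp (f x))
        (fun y _ => (mul_pos (hppos y) (Real.exp_pos _)).le) (Finset.mem_univ x)
    have h2 : Real.exp (f x) * pmin ≤ Real.exp (f x) * pp K x :=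
      mul_le_mul_of_nonneg_left (hmin x) (Real.exp_pos _).le
    rw [hg2]
    linarith
  -- entropy bound
  have hent : ent (pp K) (fun x : Fin (K + 1) => Real.exp (f x)) ≤ (1 + B) ^ 2 * D ^ 2 := by
    have hterm : ∀ x : Fin (K + 1), pp K x * (Real.exp (f x) * Real.log (Real.exp (f x))) -
        pp K x * Real.exp (f x) * Real.log m - pp K x * Real.exp (f x) + pp K x * m ≤
        pp K x * ((1 + B) ^ 2 * D ^ 2) := by
      intro x
      have hv : 0 < g x / sm := div_pos (hgpos _) hsmpos
      have hu := ulog_le (g x / sm) B hv (hgB x)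
      have e1 : (g x / sm) ^ 2 = Real.exp (f x) / m := by rw [div_pow, hg2, hsm2]
      have e2 : Real.log ((g x / sm) ^ 2) = Real.log (Real.exp (f x)) - Real.log m := by
        rw [e1, Real.log_div (Real.exp_pos _).ne' hmpos.ne']
      rw [e2, e1] at hu
      have e3 : (g x / sm - 1) ^ 2 = (g x - sm) ^ 2 / m := by
        rw [← hsm2]; field_simp
      rw [e3] at hu
      have h4 : (g x - sm) ^ 2 ≤ D ^ 2 := by
        rw [← sq_abs]
        exact pow_le_pow_left₀ (abs_nonneg _) (hgx x) 2
      have h5 := mul_le_mul_of_nonneg_left hu hmpos.le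
      have h6 : m * (Real.exp (f x) / m * (Real.log (Real.exp (f x)) - Real.log m) -
          Real.exp (f x) / m + 1) = Real.exp (f x) * Real.log (Real.exp (f x)) -
          Real.exp (f x) * Real.log m - Real.exp (f x) + m := by
        field_simp
      have h7 : m * ((1 + B) ^ 2 * ((g x - sm) ^ 2 / m)) = (1 + B) ^ 2 * (g x - sm) ^ 2 := by
        field_simp
      rw [h6, h7] at h5
      have h8 : (1 + B) ^ 2 * (g x - sm) ^ 2 ≤ (1 + B) ^ 2 * D ^ 2 :=
        mul_le_mul_of_nonneg_left h4 (by positivity)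
      have h9 := mul_le_mul_of_nonneg_left (h5.trans h8) (hppos x).le
      linarith
    have hsum := Finset.sum_le_sum (fun x (_ : x ∈ (Finset.univ : Finset (Fin (K + 1)))) => hterm x)
    rw [Finset.sum_add_distrib, Finset.sum_sub_distrib, Finset.sum_sub_distrib,
      ← Finset.sum_mul, ← Finset.sum_mul, ← Finset.sum_mul, hpsum, one_mul, one_mul,
      ← hm] at hsum
    unfold ent
    rw [← hm]
    linarith
  -- Dirichlet bound
  have hdir : D ^ 2 ≤ K ^ 2 * WW K *
      dirichlet (PP K) (pp K) (fun x : Fin (K + 1) => Real.exp (f x)) (fun x => f x) := by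
    have hD2 : D ^ 2 ≤ K * ∑ i ∈ range K, (g i - g (i + 1)) ^ 2 := by
      have := sq_sum_le_card_mul_sum_sq (s := range K) (f := fun i => |g i - g (i + 1)|)
      simp only [sq_abs, Finset.card_range] at this
      exact this
    have hdd := dirichlet_PP K hK (fun i => Real.exp (f i)) f
    have hdd' : dirichlet (PP K) (pp K) (fun x : Fin (K + 1) => Real.exp (f x)) (fun x => f x) =
        (∑ i ∈ range K, 2 ^ i / (2 * K) *
          ((Real.exp (f i) - Real.exp (f (i + 1))) * (f i - f (i + 1)))) / WW K := hdd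
    rw [hdd']
    have hW := WW_pos K hK1
    have hterm : ∀ i ∈ range K, (g i - g (i + 1)) ^ 2 ≤ K * (2 ^ i / (2 * K) *
          ((Real.exp (f i) - Real.exp (f (i + 1))) * (f i - f (i + 1)))) := by
      intro i _
      have h1 := edge_le (f i) (f (i + 1))
      have h2 : (1 : ℝ) ≤ 2 ^ i := one_le_pow₀ (by norm_num)
      have h3 : K * (2 ^ i / (2 * K) *
          ((Real.exp (f i) - Real.exp (f (i + 1))) * (f i - f (i + 1)))) =
          2 ^ i * (((Real.exp (f i) - Real.exp (f (i + 1))) * (f i - f (i + 1))) / 2) := by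
        field_simp
      rw [h3]
      have h4 : 0 ≤ ((Real.exp (f i) - Real.exp (f (i + 1))) * (f i - f (i + 1))) / 2 := by
        have : 0 ≤ 2 * (Real.exp (f i / 2) - Real.exp (f (i + 1) / 2)) ^ 2 := by positivity
        linarith
      calc (g i - g (i + 1)) ^ 2
          ≤ ((Real.exp (f i) - Real.exp (f (i + 1))) * (f i - f (i + 1))) / 2 := by
            simp only [hg]; linarith
        _ = 1 * (((Real.exp (f i) - Real.exp (f (i + 1))) * (f i - f (i + 1))) / 2) := by ring
        _ ≤ _ := mul_le_mul_of_nonneg_right h2 h4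
    have hs := Finset.sum_le_sum hterm
    rw [← Finset.mul_sum] at hs
    calc D ^ 2 ≤ K * ∑ i ∈ range K, (g i - g (i + 1)) ^ 2 := hD2
      _ ≤ K * (K * ∑ i ∈ range K, 2 ^ i / (2 * K) *
          ((Real.exp (f i) - Real.exp (f (i + 1))) * (f i - f (i + 1)))) :=
          mul_le_mul_of_nonneg_left hs hK0.le
      _ = _ := by field_simp
  calc ent (pp K) (fun x : Fin (K + 1) => Real.exp (f x)) ≤ (1 + B) ^ 2 * D ^ 2 := hent
    _ ≤ (1 + B) ^ 2 * (K ^ 2 * WW K *
      dirichlet (PP K) (pp K) (fun x : Fin (K + 1) => Real.exp (f x)) (fun x => f x)) :=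
        mul_le_mul_of_nonneg_left hdir (by positivity)
    _ = _ := by ring

theorem ww_ge (K i : ℕ) (hK : 2 ≤ K) : 1 / K ≤ ww K i := by
  have hK' : (2 : ℝ) ≤ K := by exact_mod_cast hK
  unfold ww
  split_ifs
  · rw [div_le_one (by linarith)]; linarith
  · have h1 : (1 : ℝ) ≤ 2 ^ (i - 1) := one_le_pow₀ (by norm_num)
    have h2 : (1 : ℝ) / K ≤ 3 / (2 * K) := by
      rw [div_le_div_iff₀ (by linarith) (by linarith)]; linarith
    have h3 : (0 : ℝ) ≤ 3 / (2 * K) := by positivity
    nlinarith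
  · have h1 : (1 : ℝ) ≤ 4 ^ K := one_le_pow₀ (by norm_num)
    have : (1 : ℝ) / K ≤ 1 := by rw [div_le_one (by linarith)]; linarith
    linarith

/-- lower bound for the stationary law -/
theorem pp_ge (K : ℕ) (hK : 2 ≤ K) (x : Fin (K + 1)) : 1 / (2 * K * 4 ^ K) ≤ pp K x := by
  unfold pp
  have h1 := ww_ge K x hK
  have h2 := WW_le K hK
  have h3 := two_pow_le_four_pow K
  have h4 := WW_pos K (by omega : 1 ≤ K)
  have hK0 : (0 : ℝ) < K := by exact_mod_cast (by omega : 0 < K)
  calc (1 : ℝ) / (2 * K * 4 ^ K) = (1 / K) / (2 * 4 ^ K) := by field_simp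
    _ ≤ (1 / K) / WW K := by
        apply div_le_div_of_nonneg_left (by positivity) h4
        linarith
    _ ≤ _ := div_le_div_of_nonneg_right h1 h4.le

/-- the set whose infimum is the modified log-Sobolev constant is bounded below by a positive
number -/
theorem cMLS_pos (K : ℕ) (hK : 2 ≤ K) : 0 < cMLS (PP K) (pp K) := by
  have hK0 : (0 : ℝ) < K := by exact_mod_cast (by omega : 0 < K)
  set pmin : ℝ := 1 / (2 * K * 4 ^ K) with hpm
  have hpm0 : 0 < pmin := by positivity
  set Q := (1 + Real.sqrt (1 / pmin)) ^ 2 * K ^ 2 * WW K with hQ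
  have hQ0 : 0 < Q := by
    have := WW_pos K (by omega : 1 ≤ K)
    have h2 : 0 ≤ Real.sqrt (1 / pmin) := Real.sqrt_nonneg _
    positivity
  unfold cMLS
  have hlow : 1 / Q ≤ sInf {r : ℝ | ∃ f : Fin (K + 1) → ℝ, (¬ ∃ c, ∀ x, f x = c) ∧
    r = dirichlet (PP K) (pp K) (fun x => Real.exp (f x)) f /
      ent (pp K) (fun x => Real.exp (f x))} := by
    apply le_csInf
    · refine ⟨_, fun x => ((x : ℕ) : ℝ), ?_, rfl⟩
      rintro ⟨c, hc⟩
      have h0 := hc 0
      have h1 := hc (Fin.last K)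
      simp only [Fin.val_zero, Nat.cast_zero, Fin.val_last] at h0 h1
      linarith
    · rintro r ⟨f, hf, rfl⟩
      have hpos := ent_pos (pp K) (pp_pos K (by omega)) (pp_sum K (by omega)) f hf
      let f' : ℕ → ℝ := fun n => if h : n < K + 1 then f ⟨n, h⟩ else 0
      have hff : (fun x : Fin (K + 1) => f' x) = f := by
        funext x
        show (if h : (x : ℕ) < K + 1 then f ⟨x, h⟩ else 0) = f x
        rw [dif_pos x.2]
      have hexp : (fun x : Fin (K + 1) => Real.exp (f' x)) = fun x => Real.exp (f x) := by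
        rw [← hff]
      have hE := ent_le_dirichlet K hK pmin hpm0 (pp_ge K hK) f'
      rw [hexp, hff, ← hQ] at hE
      rw [div_le_div_iff₀ hQ0 hpos, one_mul]
      linarith
  exact lt_of_lt_of_le (by positivity) hlow

theorem cMLS_le (K : ℕ) (hK : 9 ≤ K) : cMLS (PP K) (pp K) ≤ 3 / (2 * K * (K - 8)) := by
  have hK0 : (9 : ℝ) ≤ K := by exact_mod_cast hK
  have hl := log_four_pos
  have hd := dirichlet_test K (by omega)
  have he := ent_test K (by omega)
  have hnc : ¬ ∃ c, ∀ x : Fin (K + 1), ff K x = c := by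
    rintro ⟨c, hc⟩
    have h0 := hc 0
    have h1 := hc (Fin.last K)
    unfold ff at h0 h1
    simp only [Fin.val_zero, Nat.cast_zero, Fin.val_last, sub_self, zero_mul, sub_zero] at h0 h1
    rw [← h1] at h0
    have : (0 : ℝ) < K * Real.log 4 := by positivity
    linarith
  have hb : BddBelow {r : ℝ | ∃ f : Fin (K + 1) → ℝ, (¬ ∃ c, ∀ x, f x = c) ∧
    r = dirichlet (PP K) (pp K) (fun x => Real.exp (f x)) f /
      ent (pp K) (fun x => Real.exp (f x))} := by
    refine ⟨0, ?_⟩
    rintro r ⟨f, hf, rfl⟩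
    have hpos := ent_pos (pp K) (pp_pos K (by omega)) (pp_sum K (by omega)) f hf
    let f' : ℕ → ℝ := fun n => if h : n < K + 1 then f ⟨n, h⟩ else 0
    have hff : (fun x : Fin (K + 1) => f' x) = f := by
      funext x
      show (if h : (x : ℕ) < K + 1 then f ⟨x, h⟩ else 0) = f x
      rw [dif_pos x.2]
    have hexp : (fun x : Fin (K + 1) => Real.exp (f' x)) = fun x => Real.exp (f x) := by
      rw [← hff]
    have hdd := dirichlet_PP K (by omega) (fun i => Real.exp (f' i)) f'
    rw [hexp, hff] at hdd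
    apply div_nonneg _ hpos.le
    rw [hdd]
    apply div_nonneg _ (WW_pos K (by omega)).le
    apply Finset.sum_nonneg
    intro i _
    have h1 := edge_le (f' i) (f' (i + 1))
    have h2 : 0 ≤ 2 * (Real.exp (f' i / 2) - Real.exp (f' (i + 1) / 2)) ^ 2 := by positivity
    exact mul_nonneg (by positivity) (by linarith)
  refine (csInf_le hb ⟨fun x => ff K x, hnc, rfl⟩).trans ?_
  have hk8 : (0 : ℝ) < (K : ℝ) / 2 - 4 := by linarith
  have hentpos : 0 < ((K : ℝ) / 2 - 4) * Real.log 4 := mul_pos hk8 hl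
  calc _ ≤ (3 / (4 * K) * Real.log 4) / (((K : ℝ) / 2 - 4) * Real.log 4) := by
        apply div_le_div₀ (by positivity) hd hentpos he
    _ = 3 / (2 * K * (K - 8)) := by
        have h8 : (K : ℝ) - 8 ≠ 0 := by
          have : (0 : ℝ) < K - 8 := by linarith
          exact this.ne'
        have e : (K : ℝ) / 2 - 4 = (K - 8) / 2 := by ring
        rw [e]
        field_simp
        ring

end Pool.Agent.H251.MLS
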