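import Mathlib

/-!
# Definitions for MP_d1aba8_pr: continuous time chains, typical mixing time, relaxation time
-/

namespace Pool.Agent.H251.Typical

open Finset

section

variable {S : Type} [Fintype S] [DecidableEq S]

/-- `Q` is the generator of an irreducible continuous time Markov chain on the finite set `S` and
`π` is its stationary distribution. Reversibility is not assumed. -/
structure IsChain (Q : Matrix S S ℝ) (π : S → ℝ) : Prop where
  rates_nonneg : ∀ x y, x ≠ y → 0 ≤ Q x y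
  row_sum : ∀ x, ∑ y, Q x y = 0
  irreducible : ∀ x y, Relation.ReflTransGen (fun a b => a ≠ b ∧ 0 < Q a b) x y
  pi_nonneg : ∀ x, 0 ≤ π x
  pi_sum : ∑ x, π x = 1
  stationary : ∀ y, ∑ x, π x * Q x y = 0

/-- The law at time `t` of the chain started at `x`: row `x` of `exp (t Q)`. -/
noncomputable def law (Q : Matrix S S ℝ) (t : ℝ) (x : S) : S → ℝ :=
  (NormedSpace.exp (t • Q) : Matrix S S ℝ) x

/-- Total variation distance `sup_A |μ(A) - ν(A)|`. -/
noncomputable def tvd (μ ν : S → ℝ) : ℝ := ⨆ A : Finset S, |∑ a ∈ A, μ a - ∑ a ∈ A, ν a|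

/-- `τ_x = inf {t ≥ 0 : ‖P_x(X_t ∈ ·) - π‖ ≤ 1/4}`. -/
noncomputable def tauX (Q : Matrix S S ℝ) (π : S → ℝ) (x : S) : ℝ :=
  sInf {t : ℝ | 0 ≤ t ∧ tvd (law Q t x) π ≤ 1 / 4}

open Classical in
/-- `τ` is a median of `τ_x` when `x` is drawn from `π`. -/
noncomputable def IsMedian (Q : Matrix S S ℝ) (π : S → ℝ) (τ : ℝ) : Prop :=
  1 / 2 ≤ ∑ x ∈ Finset.univ.filter (fun x => tauX Q π x ≤ τ), π x ∧
  1 / 2 ≤ ∑ x ∈ Finset.univ.filter (fun x => τ ≤ tauX Q π x), π x

/-- The spectral gap: the smallest real part of a nonzero eigenvalue of `-Q`. -/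
noncomputable def gap (Q : Matrix S S ℝ) : ℝ :=
  sInf {r : ℝ | ∃ (z : ℂ) (f : S → ℂ), z ≠ 0 ∧ f ≠ 0 ∧
    (∀ x, -∑ y, (Q x y : ℂ) * f y = z * f x) ∧ r = z.re}

/-- The relaxation time. -/
noncomputable def tau2 (Q : Matrix S S ℝ) : ℝ := 1 / gap Q

open Classical in
/-- `π {x : ‖P_x(X_t ∈ ·) - π‖ > c}`. -/
noncomputable def farMass (Q : Matrix S S ℝ) (π : S → ℝ) (t c : ℝ) : ℝ :=
  ∑ x ∈ Finset.univ.filter (fun x => c < tvd (law Q t x) π), π x

end

end Pool.Agent.H251.Typical
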