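import Pool.Agent.H251.TypicalDefs
import Pool.Agent.H251.CycleSpec
import Pool.Agent.H251.Heat

/-!
# The continuous time walk on the cycle
-/

namespace Pool.Agent.H251.Typical

open Finset Pool.Agent.H251.Walk

/-- transition matrix of the walk -/
noncomputable def KK (s : ℕ) : Matrix (ZMod (NN s)) (ZMod (NN s)) ℝ := fun x y => mu s (y - x)

/-- generator of the continuous time walk -/
noncomputable def QQ (s : ℕ) : Matrix (ZMod (NN s)) (ZMod (NN s)) ℝ := KK s - 1

theorem QQ_apply (s : ℕ) (x y : ZMod (NN s)) :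
    QQ s x y = mu s (y - x) - (if x = y then 1 else 0) := by
  have h : QQ s x y = KK s x y - (1 : Matrix (ZMod (NN s)) (ZMod (NN s)) ℝ) x y := rfl
  rw [h, Matrix.one_apply]
  rfl

/-- uniform law -/
noncomputable def pi0 (s : ℕ) : ZMod (NN s) → ℝ := unif (ZMod (NN s))

theorem KK_pow (s n : ℕ) : ∀ x y, (KK s ^ n) x y = cpow (mu s) n (y - x) := by
  induction n with
  | zero =>
    intro x y
    rw [pow_zero, Matrix.one_apply]
    unfold cpow
    by_cases h : x = y
    · subst h; simp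
    · rw [if_neg h, if_neg (sub_ne_zero.mpr (Ne.symm h))]
  | succ n ih =>
    intro x y
    rw [pow_succ', Matrix.mul_apply]
    have e : cpow (mu s) (n + 1) (y - x) = ∑ w, mu s w * cpow (mu s) n ((y - x) - w) := rfl
    rw [e]
    refine Fintype.sum_equiv (Equiv.subRight x) _ _ (fun z => ?_)
    rw [ih]
    simp only [Equiv.subRight_apply]
    unfold KK
    congr 2
    ring

theorem law_eq (s : ℕ) (t : ℝ) (x : ZMod (NN s)) :
    law (QQ s) t x = (NormedSpace.exp (-(t • (1 - KK s))) : Matrix _ _ ℝ) x := by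
  unfold law QQ
  rw [← smul_neg, neg_sub]

/-- Poisson weights -/
noncomputable def pw (t : ℝ) (n : ℕ) : ℝ := Real.exp (-t) * t ^ n / (Nat.factorial n : ℝ)

theorem pw_nonneg {t : ℝ} (ht : 0 ≤ t) (n : ℕ) : 0 ≤ pw t n := by unfold pw; positivity

theorem pw_sum (t : ℝ) : HasSum (fun n => pw t n) 1 := by
  have h := poisson_hasSum t 1
  simpa [pw] using h

theorem pw_geom (t r : ℝ) : HasSum (fun n => pw t n * (1 - r) ^ n) (Real.exp (-(r * t))) := by
  have h := poisson_hasSum t (1 - r)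
  have e : -(1 - (1 - r)) * t = -(r * t) := by ring
  rw [e] at h
  exact h

theorem pw_mean (t : ℝ) : HasSum (fun n => pw t n * (n : ℝ)) t := by
  rw [← hasSum_nat_add_iff' 1]
  simp only [Finset.range_one, Finset.sum_singleton, Nat.cast_zero, mul_zero, sub_zero]
  have h := (pw_sum t).mul_right t
  rw [one_mul] at h
  have e : (fun n : ℕ => pw t (n + 1) * ((n + 1 : ℕ) : ℝ)) = fun n => pw t n * t := by
    funext n
    unfold pw
    rw [Nat.factorial_succ]
    push_cast
    have : (n : ℝ) + 1 ≠ 0 := by positivity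
    field_simp
    ring
  rw [e]
  exact h

theorem law_sum_hasSum (s : ℕ) (t : ℝ) (x : ZMod (NN s)) (A : Finset (ZMod (NN s))) :
    HasSum (fun n => pw t n * ∑ a ∈ A, cpow (mu s) n (a - x)) (∑ a ∈ A, law (QQ s) t x a) := by
  have h := hasSum_sum (s := A) (fun a _ => heat_hasSum (KK s) t x a)
  have e : (fun n : ℕ => pw t n * ∑ a ∈ A, cpow (mu s) n (a - x)) =
      fun n : ℕ => ∑ a ∈ A, Real.exp (-t) * t ^ n / (Nat.factorial n : ℝ) * ((KK s ^ n) x a) := by
    funext n
    rw [Finset.mul_sum]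
    apply Finset.sum_congr rfl
    intro a _
    rw [KK_pow]
    rfl
  rw [e]
  have e2 : ∑ a ∈ A, law (QQ s) t x a =
      ∑ a ∈ A, (NormedSpace.exp (-(t • (1 - KK s))) : Matrix _ _ ℝ) x a := by
    apply Finset.sum_congr rfl
    intro a _
    rw [law_eq]
  rw [e2]
  exact h

/-- the difference of masses as a Poisson average -/
theorem diff_hasSum (s : ℕ) (t : ℝ) (x : ZMod (NN s)) (A : Finset (ZMod (NN s))) :
    HasSum (fun n => pw t n * (∑ a ∈ A, cpow (mu s) n (a - x) - ∑ a ∈ A, pi0 s a))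
      (∑ a ∈ A, law (QQ s) t x a - ∑ a ∈ A, pi0 s a) := by
  have h := (law_sum_hasSum s t x A).sub ((pw_sum t).mul_right (∑ a ∈ A, pi0 s a))
  rw [one_mul] at h
  have e : (fun n => pw t n * (∑ a ∈ A, cpow (mu s) n (a - x) - ∑ a ∈ A, pi0 s a)) =
      fun n => pw t n * ∑ a ∈ A, cpow (mu s) n (a - x) - pw t n * ∑ a ∈ A, pi0 s a := by
    funext n; ring
  rw [e]
  exact h

theorem sub_law_abs {G : Type} [Fintype G] (f g : G → ℝ) (hf : IsLaw f)
    (hg : IsLaw g) (A : Finset G) : |∑ a ∈ A, f a - ∑ a ∈ A, g a| ≤ 1 := by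
  have h1 : ∑ a ∈ A, f a ≤ 1 := by
    rw [← hf.sum_one]
    exact Finset.sum_le_sum_of_subset_of_nonneg (Finset.subset_univ A) (fun i _ _ => hf.nonneg i)
  have h2 : ∑ a ∈ A, g a ≤ 1 := by
    rw [← hg.sum_one]
    exact Finset.sum_le_sum_of_subset_of_nonneg (Finset.subset_univ A) (fun i _ _ => hg.nonneg i)
  have h3 : 0 ≤ ∑ a ∈ A, f a := Finset.sum_nonneg (fun i _ => hf.nonneg i)
  have h4 : 0 ≤ ∑ a ∈ A, g a := Finset.sum_nonneg (fun i _ => hg.nonneg i)
  rw [abs_le]
  constructor <;> linarith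

theorem shift_law {G : Type} [AddCommGroup G] [Fintype G] (f : G → ℝ) (hf : IsLaw f) (x : G) :
    IsLaw (fun a => f (a - x)) where
  nonneg := fun a => hf.nonneg _
  sum_one := by
    rw [← hf.sum_one]
    exact Fintype.sum_equiv (Equiv.subRight x) _ _ (fun a => rfl)

/-- one-step bound for the distance at each jump number -/
theorem step_abs (s n : ℕ) (x : ZMod (NN s)) (A : Finset (ZMod (NN s))) :
    |∑ a ∈ A, cpow (mu s) n (a - x) - ∑ a ∈ A, pi0 s a| ≤
      (1 - 1 / (4 * (ell s : ℝ))) ^ n := by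
  have h0 : (0 : ℝ) ≤ 1 - 1 / (4 * (ell s : ℝ)) := by linarith [rr_le s]
  have e : ∑ a ∈ A, cpow (mu s) n (a - x) - ∑ a ∈ A, pi0 s a =
      (1 - 1 / (4 * (ell s : ℝ))) ^ n *
        (∑ a ∈ A, cpow (nu s) n (a - x) - ∑ a ∈ A, pi0 s a) := by
    rw [← Finset.sum_sub_distrib, ← Finset.sum_sub_distrib, Finset.mul_sum]
    apply Finset.sum_congr rfl
    intro a _
    have h := cpow_mixU (1 / (4 * (ell s : ℝ))) (nu s) (nu_law s) n (a - x)
    have h2 : unif (ZMod (NN s)) (a - x) = pi0 s a := rfl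
    unfold mu
    rw [h, h2]
    ring
  rw [e, abs_mul, abs_of_nonneg (pow_nonneg h0 n)]
  have h1 := sub_law_abs (fun a => cpow (nu s) n (a - x)) (pi0 s)
    (shift_law _ (cpow_law _ (nu_law s) n) x) unif_law A
  calc _ ≤ (1 - 1 / (4 * (ell s : ℝ))) ^ n * 1 :=
        mul_le_mul_of_nonneg_left h1 (pow_nonneg h0 n)
    _ = _ := mul_one _

theorem bddAbove_tvd {S : Type} [Fintype S] [DecidableEq S] (μ ν : S → ℝ) :
    BddAbove (Set.range (fun A : Finset S => |∑ a ∈ A, μ a - ∑ a ∈ A, ν a|)) :=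
  Set.finite_range _ |>.bddAbove

/-- upper bound for the distance in continuous time -/
theorem tvd_le (s : ℕ) {t : ℝ} (ht : 0 ≤ t) (x : ZMod (NN s)) :
    tvd (law (QQ s) t x) (pi0 s) ≤ Real.exp (-(1 / (4 * (ell s : ℝ)) * t)) := by
  unfold tvd
  apply ciSup_le
  intro A
  have h := diff_hasSum s t x A
  have hg := pw_geom t (1 / (4 * (ell s : ℝ)))
  have hle : ∀ n, ‖pw t n * (∑ a ∈ A, cpow (mu s) n (a - x) - ∑ a ∈ A, pi0 s a)‖ ≤
      pw t n * (1 - 1 / (4 * (ell s : ℝ))) ^ n := by
    intro n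
    rw [norm_mul, Real.norm_of_nonneg (pw_nonneg ht n), Real.norm_eq_abs]
    exact mul_le_mul_of_nonneg_left (step_abs s n x A) (pw_nonneg ht n)
  have := tsum_of_norm_bounded hg hle
  rw [h.tsum_eq, Real.norm_eq_abs] at this
  exact this

/-- lower bound for the distance in continuous time -/
theorem tvd_gt (s : ℕ) {t : ℝ} (ht : 0 ≤ t) (ht2 : t ≤ 4 * ell s) (x : ZMod (NN s)) :
    1 / 4 < tvd (law (QQ s) t x) (pi0 s) := by
  have hl := ellR_pos s
  set A : Finset (ZMod (NN s)) := Finset.univ.filter (fun a => a - x ∈ AA s) with hA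
  have h := (diff_hasSum s t x A).neg
  have hsum1 : ∀ n, ∑ a ∈ A, cpow (mu s) n (a - x) = ∑ b ∈ AA s, cpow (mu s) n b := by
    intro n
    apply Finset.sum_bij (fun a _ => a - x)
    · intro a ha
      exact (Finset.mem_filter.mp ha).2
    · intro a _ b _ hab
      exact sub_left_injective hab
    · intro b hb
      exact ⟨b + x, Finset.mem_filter.mpr ⟨Finset.mem_univ _, by rwa [add_sub_cancel_right]⟩,
        add_sub_cancel_right b x⟩
    · intro a _
      rfl
  have hsum2 : ∑ a ∈ A, pi0 s a = uA s := by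
    rw [← unif_AA]
    apply Finset.sum_bij (fun a _ => a - x)
    · intro a ha
      exact (Finset.mem_filter.mp ha).2
    · intro a _ b _ hab
      exact sub_left_injective hab
    · intro b hb
      exact ⟨b + x, Finset.mem_filter.mpr ⟨Finset.mem_univ _, by rwa [add_sub_cancel_right]⟩,
        add_sub_cancel_right b x⟩
    · intro a _
      rfl
  have hg := (pw_geom t (1 / (4 * (ell s : ℝ)))).sub ((pw_mean t).div_const (400 * (ell s : ℝ)))
  have hg2 := hg.mul_left (9 / 10)
  have hle : 9 / 10 * (Real.exp (-(1 / (4 * (ell s : ℝ)) * t)) - t / (400 * (ell s : ℝ))) ≤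
      -(∑ a ∈ A, law (QQ s) t x a - ∑ a ∈ A, pi0 s a) := by
    refine hasSum_le (fun n => ?_) hg2 h
    rw [hsum1 n, hsum2]
    have hw := pw_nonneg ht n
    have hkey : 9 / 10 * ((1 - 1 / (4 * (ell s : ℝ))) ^ n - (n : ℝ) / (400 * ell s)) ≤
        uA s - ∑ b ∈ AA s, cpow (mu s) n b := by
      by_cases hn : n ≤ 400 * ell s
      · have h1 := diff_AA_ge s n hn
        have h2 : (0 : ℝ) ≤ (n : ℝ) / (400 * ell s) := by positivity
        linarith
      · push Not at hn
        have h1 := diff_AA_nonneg s n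
        have h0 : (0 : ℝ) ≤ 1 - 1 / (4 * (ell s : ℝ)) := by linarith [rr_le s]
        have h2 : (1 - 1 / (4 * (ell s : ℝ))) ^ n ≤ 1 := pow_le_one₀ h0 (by linarith [rr_pos s])
        have h3 : (1 : ℝ) ≤ (n : ℝ) / (400 * ell s) := by
          rw [le_div_iff₀ (by positivity), one_mul]
          exact_mod_cast hn.le
        linarith
    have := mul_le_mul_of_nonneg_left hkey hw
    calc 9 / 10 * (pw t n * (1 - 1 / (4 * (ell s : ℝ))) ^ n - pw t n * (n : ℝ) / (400 * ell s))
        = pw t n * (9 / 10 * ((1 - 1 / (4 * (ell s : ℝ))) ^ n - (n : ℝ) / (400 * ell s))) := by ring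
      _ ≤ pw t n * (uA s - ∑ b ∈ AA s, cpow (mu s) n b) := this
      _ = _ := by ring
  have h1 : -(∑ a ∈ A, law (QQ s) t x a - ∑ a ∈ A, pi0 s a) ≤ tvd (law (QQ s) t x) (pi0 s) := by
    refine le_trans (neg_le_abs _) ?_
    exact le_ciSup (bddAbove_tvd (law (QQ s) t x) (pi0 s)) A
  have h2 : Real.exp (-1) ≤ Real.exp (-(1 / (4 * (ell s : ℝ)) * t)) := by
    apply Real.exp_le_exp.mpr
    have : 1 / (4 * (ell s : ℝ)) * t ≤ 1 := by
      rw [one_div_mul_eq_div, div_le_one (by positivity)]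
      exact ht2
    linarith
  have h3 : (0.3678794411 : ℝ) < Real.exp (-1) := by
    have := Real.exp_neg_one_gt_d9
    linarith
  have h4 : t / (400 * (ell s : ℝ)) ≤ 1 / 100 := by
    rw [div_le_div_iff₀ (by positivity) (by norm_num)]
    linarith
  norm_num at h3
  linarith

theorem tauX_nonempty (s : ℕ) (x : ZMod (NN s)) :
    {t : ℝ | 0 ≤ t ∧ tvd (law (QQ s) t x) (pi0 s) ≤ 1 / 4}.Nonempty := by
  have hl := ellR_pos s
  refine ⟨4 * ell s * Real.log 4, by
    have : 0 ≤ Real.log 4 := Real.log_nonneg (by norm_num)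
    positivity, ?_⟩
  have h0 : 0 ≤ 4 * (ell s : ℝ) * Real.log 4 := by
    have : 0 ≤ Real.log 4 := Real.log_nonneg (by norm_num)
    positivity
  refine (tvd_le s h0 x).trans ?_
  have e : 1 / (4 * (ell s : ℝ)) * (4 * ell s * Real.log 4) = Real.log 4 := by field_simp
  rw [e, Real.exp_neg, Real.exp_log (by norm_num)]
  norm_num

theorem tauX_ge (s : ℕ) (x : ZMod (NN s)) : 4 * (ell s : ℝ) ≤ tauX (QQ s) (pi0 s) x := by
  unfold tauX
  apply le_csInf (tauX_nonempty s x)
  rintro t ⟨ht, ht2⟩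
  by_contra hcon
  push Not at hcon
  have := tvd_gt s ht hcon.le x
  linarith

/-- translation invariance -/
theorem tvd_shift (s : ℕ) (t : ℝ) (x : ZMod (NN s)) :
    tvd (law (QQ s) t x) (pi0 s) = tvd (law (QQ s) t 0) (pi0 s) := by
  have hlaw : ∀ a, law (QQ s) t x a = law (QQ s) t 0 (a - x) := by
    intro a
    have h1 := heat_hasSum (KK s) t x a
    have h2 := heat_hasSum (KK s) t 0 (a - x)
    simp only [KK_pow, sub_zero] at h1 h2
    rw [law_eq, law_eq]
    exact h1.unique h2
  unfold tvd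
  apply Equiv.iSup_congr (Equiv.finsetCongr (Equiv.subRight x))
  intro A
  rw [Equiv.finsetCongr_apply, Finset.sum_map, Finset.sum_map]
  congr 2
  exact Finset.sum_congr rfl (fun a _ => (hlaw a).symm)

theorem tauX_shift (s : ℕ) (x : ZMod (NN s)) :
    tauX (QQ s) (pi0 s) x = tauX (QQ s) (pi0 s) 0 := by
  unfold tauX
  simp only [tvd_shift s _ x]

theorem isMedian (s : ℕ) : IsMedian (QQ s) (pi0 s) (tauX (QQ s) (pi0 s) 0) := by
  unfold IsMedian
  have h : ∑ x, pi0 s x = 1 := unif_law.sum_one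
  constructor
  · rw [Finset.filter_true_of_mem (fun x _ => (tauX_shift s x).le), h]; norm_num
  · rw [Finset.filter_true_of_mem (fun x _ => (tauX_shift s x).ge), h]; norm_num

/-- every median is at least `4 ell` -/
theorem median_ge (s : ℕ) (τ : ℝ) (h : IsMedian (QQ s) (pi0 s) τ) : 4 * (ell s : ℝ) ≤ τ := by
  obtain ⟨h1, _⟩ := h
  by_contra hcon
  push Not at hcon
  have : ∑ x ∈ Finset.univ.filter (fun x => tauX (QQ s) (pi0 s) x ≤ τ), pi0 s x = 0 := by
    apply Finset.sum_eq_zero
    intro x hx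
    have h2 := (Finset.mem_filter.mp hx).2
    have h3 := tauX_ge s x
    linarith
  linarith

/-- the chain -/
theorem isChain (s : ℕ) : IsChain (QQ s) (pi0 s) where
  rates_nonneg := by
    intro x y hxy
    rw [QQ_apply, if_neg hxy, sub_zero]
    exact (mu_law s).nonneg _
  row_sum := by
    intro x
    simp only [QQ_apply, Finset.sum_sub_distrib]
    have h1 : ∑ y, mu s (y - x) = 1 := (shift_law _ (mu_law s) x).sum_one
    rw [h1, Finset.sum_ite_eq, if_pos (Finset.mem_univ _), sub_self]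
  irreducible := by
    intro x y
    by_cases h : x = y
    · rw [h]
    · apply Relation.ReflTransGen.single
      refine ⟨h, ?_⟩
      rw [QQ_apply, if_neg h, sub_zero]
      exact nu_full s _
  pi_nonneg := unif_law.nonneg
  pi_sum := unif_law.sum_one
  stationary := by
    intro y
    have e : ∀ x, pi0 s x * QQ s x y = 1 / (Fintype.card (ZMod (NN s)) : ℝ) * QQ s x y :=
      fun x => rfl
    simp only [e, ← Finset.mul_sum]
    have h0 : ∑ x, QQ s x y = 0 := by
      simp only [QQ_apply, Finset.sum_sub_distrib]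
      have h1 : ∑ x, mu s (y - x) = 1 := by
        rw [sum_sub_left (mu s) y]
        exact (mu_law s).sum_one
      rw [h1, Finset.sum_ite_eq', if_pos (Finset.mem_univ _), sub_self]
    rw [h0, mul_zero]

/-- eigenfunctions under iteration -/
theorem iterate_eig (s : ℕ) (w : ℂ) (f : ZMod (NN s) → ℂ)
    (h : ∀ x, ∑ y, (mu s (y - x) : ℂ) * f y = w * f x) (n : ℕ) :
    ∀ x, ∑ y, (cpow (mu s) n (y - x) : ℂ) * f y = w ^ n * f x := by
  induction n with
  | zero =>
    intro x
    unfold cpow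
    rw [pow_zero, one_mul, Finset.sum_eq_single x]
    · simp
    · intro b _ hb
      rw [if_neg (sub_ne_zero.mpr hb)]
      simp
    · intro hx
      exact absurd (Finset.mem_univ _) hx
  | succ n ih =>
    intro x
    have e1 : ∀ y, (cpow (mu s) (n + 1) (y - x) : ℂ) =
        ∑ z, (mu s (z - x) : ℂ) * (cpow (mu s) n (y - z) : ℂ) := by
      intro y
      have h1 := KK_pow s (n + 1) x y
      rw [pow_succ', Matrix.mul_apply] at h1
      rw [← h1]
      push_cast
      apply Finset.sum_congr rfl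
      intro z _
      rw [KK_pow]
      rfl
    simp only [e1, Finset.sum_mul]
    rw [Finset.sum_comm]
    have e2 : ∀ z, ∑ y, (mu s (z - x) : ℂ) * (cpow (mu s) n (y - z) : ℂ) * f y =
        (mu s (z - x) : ℂ) * (w ^ n * f z) := by
      intro z
      rw [← ih z, Finset.mul_sum]
      exact Finset.sum_congr rfl (fun y _ => by ring)
    simp only [e2]
    have e3 : ∀ z, (mu s (z - x) : ℂ) * (w ^ n * f z) = w ^ n * ((mu s (z - x) : ℂ) * f z) :=
      fun z => by ring
    simp only [e3, ← Finset.mul_sum, h x]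
    ring

theorem eig_bound (s : ℕ) (w : ℂ) (f : ZMod (NN s) → ℂ) (hw : w ≠ 1) (hf : f ≠ 0)
    (h : ∀ x, ∑ y, (mu s (y - x) : ℂ) * f y = w * f x) : ‖w‖ ≤ qq s := by
  have hsum : ∑ x, f x = 0 := by
    have h1 : ∑ x, ∑ y, (mu s (y - x) : ℂ) * f y = ∑ x, w * f x :=
      Finset.sum_congr rfl (fun x _ => h x)
    rw [Finset.sum_comm, ← Finset.mul_sum] at h1
    have h2 : ∀ y, ∑ x, (mu s (y - x) : ℂ) * f y = f y := by
      intro y
      rw [← Finset.sum_mul]
      have h3 : ∑ x, (mu s (y - x) : ℂ) = 1 := by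
        have h4 := sum_sub_left (mu s) y
        rw [(mu_law s).sum_one] at h4
        exact_mod_cast h4
      rw [h3, one_mul]
    simp only [h2] at h1
    have h5 : (w - 1) * ∑ x, f x = 0 := by linear_combination -h1
    rcases mul_eq_zero.mp h5 with h6 | h6
    · exact absurd (sub_eq_zero.mp h6) hw
    · exact h6
  obtain ⟨x0, -, hx0⟩ := Finset.exists_max_image Finset.univ (fun x => ‖f x‖) Finset.univ_nonempty
  have hpos : 0 < ‖f x0‖ := by
    by_contra hcon
    push Not at hcon
    apply hf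
    funext x
    have := hx0 x (Finset.mem_univ _)
    exact norm_le_zero_iff.mp (this.trans hcon)
  apply base_le _ _ (2 * mm s) (qq_pos s)
  intro t
  have h1 := iterate_eig s w f h t x0
  have h2 : ∑ y, (cpow (mu s) t (y - x0) : ℂ) * f y =
      ∑ y, ((cpow (mu s) t (y - x0) - unif (ZMod (NN s)) (y - x0) : ℝ) : ℂ) * f y := by
    have h3 : ∑ y, (unif (ZMod (NN s)) (y - x0) : ℂ) * f y = 0 := by
      unfold unif
      rw [← Finset.mul_sum, hsum, mul_zero]
    rw [← sub_zero (∑ y, (cpow (mu s) t (y - x0) : ℂ) * f y), ← h3, ← Finset.sum_sub_distrib]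
    apply Finset.sum_congr rfl
    intro y _
    push_cast
    ring
  have h3 : ‖w‖ ^ t * ‖f x0‖ ≤ (2 * tv (cpow (mu s) t) (unif (ZMod (NN s)))) * ‖f x0‖ := by
    rw [← norm_pow, ← norm_mul, ← h1, h2]
    refine (norm_sum_le _ _).trans ?_
    have h4 : ∀ y, ‖((cpow (mu s) t (y - x0) - unif (ZMod (NN s)) (y - x0) : ℝ) : ℂ) * f y‖ ≤
        |cpow (mu s) t (y - x0) - unif (ZMod (NN s)) (y - x0)| * ‖f x0‖ := by
      intro y
      rw [norm_mul, Complex.norm_real, Real.norm_eq_abs]
      exact mul_le_mul_of_nonneg_left (hx0 y (Finset.mem_univ _)) (abs_nonneg _)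
    refine (Finset.sum_le_sum (fun y _ => h4 y)).trans ?_
    rw [← Finset.sum_mul]
    apply mul_le_mul_of_nonneg_right _ (norm_nonneg _)
    unfold tv
    have h5 : ∑ y, |cpow (mu s) t (y - x0) - unif (ZMod (NN s)) (y - x0)| =
        ∑ y, |cpow (mu s) t y - unif (ZMod (NN s)) y| :=
      Fintype.sum_equiv (Equiv.subRight x0) _ _ (fun y => rfl)
    rw [h5]
    linarith
  have h4 := le_of_mul_le_mul_right h3 hpos
  have h5 := tv_mu_decay s t
  linarith

theorem gap_ge' (s : ℕ) : 1 / (mm s : ℝ) ≤ gap (QQ s) := by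
  have hm := mmR_pos s
  unfold gap
  apply le_csInf
  · have hN : 20 * mm s ≤ NN s := NN_ge s
    have hm' := mm_pos s
    have : Fact (1 < NN s) := ⟨by omega⟩
    have h1 : (1 : ZMod (NN s)) ≠ 0 := one_ne_zero
    have hn := norm_fhat_le s 1 h1
    have hq : qq s < 1 := by
      have : 0 < 1 / (mm s : ℝ) := by positivity
      unfold qq; linarith
    refine ⟨_, 1 - fhat (mu s) 1, fun x => ZMod.stdAddChar x, ?_, ?_, ?_, rfl⟩
    · intro h0
      have h2 : fhat (mu s) 1 = 1 := (sub_eq_zero.mp h0).symm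
      rw [h2, norm_one] at hn
      linarith
    · intro h0
      have := congrFun h0 0
      simp at this
    · intro x
      have e : ∀ y, ((QQ s x y : ℝ) : ℂ) = (mu s (y - x) : ℂ) - (if x = y then 1 else 0) := by
        intro y
        rw [QQ_apply]
        push_cast
        split_ifs <;> simp
      simp only [e, sub_mul, Finset.sum_sub_distrib, ite_mul, one_mul, zero_mul,
        Finset.sum_ite_eq, Finset.mem_univ, if_true]
      have e2 : ∑ y, (mu s (y - x) : ℂ) * ZMod.stdAddChar y =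
          fhat (mu s) 1 * ZMod.stdAddChar x := by
        unfold fhat
        rw [Finset.sum_mul]
        refine Fintype.sum_equiv (Equiv.subRight x) _ _ (fun y => ?_)
        simp only [Equiv.subRight_apply]
        rw [exp_eq_std, one_mul]
        have : (ZMod.stdAddChar y : ℂ) = ZMod.stdAddChar (y - x) * ZMod.stdAddChar x := by
          rw [← AddChar.map_add_eq_mul, sub_add_cancel]
        rw [this]; ring
      rw [e2]
      ring
  · rintro r ⟨z, f, hz, hf, hzf, rfl⟩
    have h1 : ∀ x, ∑ y, (mu s (y - x) : ℂ) * f y = (1 - z) * f x := by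
      intro x
      have h2 := hzf x
      have e : ∀ y, ((QQ s x y : ℝ) : ℂ) = (mu s (y - x) : ℂ) - (if x = y then 1 else 0) := by
        intro y
        rw [QQ_apply]
        push_cast
        split_ifs <;> simp
      simp only [e, sub_mul, Finset.sum_sub_distrib, ite_mul, one_mul, zero_mul,
        Finset.sum_ite_eq, Finset.mem_univ, if_true] at h2
      linear_combination -h2
    have h3 := eig_bound s (1 - z) f (by
      intro h
      apply hz
      linear_combination -h) hf h1
    have h4 : (1 - z).re ≤ ‖1 - z‖ := Complex.re_le_norm _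
    rw [Complex.sub_re, Complex.one_re] at h4
    unfold qq at h3
    linarith

end Pool.Agent.H251.Typical
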